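import Mathlib

/-!
Few carry sequences.
-/

set_option autoImplicit false

namespace Pool.Agent.W97.TL

/-- first code -/
noncomputable def cd1 (J : ℕ) (w : ℝ) : ℕ := ∑ j ∈ Finset.range (J + 1), ⌊(j : ℝ) * w⌋₊

/-- second code -/
noncomputable def cd2 (J : ℕ) (u w : ℝ) : ℕ := ∑ j ∈ Finset.range (J + 1), ⌊u + (j : ℝ) * w⌋₊

theorem cd1_eq {J : ℕ} {w w' : ℝ} (_hw : 0 ≤ w) (hww : w ≤ w') (h : cd1 J w = cd1 J w') :
    ∀ j ≤ J, ⌊(j : ℝ) * w⌋₊ = ⌊(j : ℝ) * w'⌋₊ := by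
  have h1 : ∀ j ∈ Finset.range (J + 1), ⌊(j : ℝ) * w⌋₊ ≤ ⌊(j : ℝ) * w'⌋₊ := by
    intro j _
    exact Nat.floor_mono (mul_le_mul_of_nonneg_left hww (Nat.cast_nonneg _))
  have h2 := (Finset.sum_eq_sum_iff_of_le h1).1 h
  intro j hj
  exact h2 j (Finset.mem_range.2 (by omega))

/-- main comparison, `w ≤ w'` -/
theorem carry_aux {J : ℕ} {u w u' w' : ℝ} (hu0 : 0 ≤ u) (hu1 : u < 1) (hw0 : 0 ≤ w)
    (hu0' : 0 ≤ u') (hu1' : u' < 1) (hww : w ≤ w') (h1 : cd1 J w = cd1 J w')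
    (h2 : cd2 J u w = cd2 J u' w') : ∀ j ≤ J, ⌊u + (j : ℝ) * w⌋₊ = ⌊u' + (j : ℝ) * w'⌋₊ := by
  have e1 := cd1_eq hw0 hww h1
  have hw0' : 0 ≤ w' := hw0.trans hww
  -- values are `f j` or `f j + 1`
  have val : ∀ (v x : ℝ), 0 ≤ v → v < 1 → 0 ≤ x → ∀ j : ℕ,
      (⌊v + (j : ℝ) * x⌋₊ = ⌊(j : ℝ) * x⌋₊ ∧ v + (j : ℝ) * x < ⌊(j : ℝ) * x⌋₊ + 1) ∨
      (⌊v + (j : ℝ) * x⌋₊ = ⌊(j : ℝ) * x⌋₊ + 1 ∧ (⌊(j : ℝ) * x⌋₊ : ℝ) + 1 ≤ v + (j : ℝ) * x) := by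
    intro v x hv0 hv1 hx j
    have hjx : 0 ≤ (j : ℝ) * x := mul_nonneg (Nat.cast_nonneg _) hx
    have f1 := Nat.floor_le hjx
    have f2 := Nat.lt_floor_add_one ((j : ℝ) * x)
    rcases lt_or_ge (v + (j : ℝ) * x) (⌊(j : ℝ) * x⌋₊ + 1) with h | h
    · left
      refine ⟨?_, h⟩
      rw [Nat.floor_eq_iff (by linarith)]
      constructor <;> linarith
    · right
      refine ⟨?_, h⟩
      rw [Nat.floor_eq_iff (by linarith)]
      push_cast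
      constructor <;> linarith
  -- comparison of two indices
  have cmp : ∀ i ≤ J, ∀ j ≤ J, ⌊u + (i : ℝ) * w⌋₊ = ⌊(i : ℝ) * w⌋₊ + 1 →
      ⌊u' + (i : ℝ) * w'⌋₊ = ⌊(i : ℝ) * w'⌋₊ → ⌊u + (j : ℝ) * w⌋₊ = ⌊(j : ℝ) * w⌋₊ →
      ⌊u' + (j : ℝ) * w'⌋₊ = ⌊(j : ℝ) * w'⌋₊ + 1 → False := by
    intro i hi j hj a1 a2 a3 a4
    have ei := e1 i hi
    have ej := e1 j hj
    have b1 : (⌊(i : ℝ) * w⌋₊ : ℝ) + 1 ≤ u + (i : ℝ) * w := by
      rcases val u w hu0 hu1 hw0 i with h | h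
      · omega
      · exact h.2
    have b2 : u' + (i : ℝ) * w' < ⌊(i : ℝ) * w'⌋₊ + 1 := by
      rcases val u' w' hu0' hu1' hw0' i with h | h
      · exact h.2
      · omega
    have b3 : u + (j : ℝ) * w < ⌊(j : ℝ) * w⌋₊ + 1 := by
      rcases val u w hu0 hu1 hw0 j with h | h
      · exact h.2
      · omega
    have b4 : (⌊(j : ℝ) * w'⌋₊ : ℝ) + 1 ≤ u' + (j : ℝ) * w' := by
      rcases val u' w' hu0' hu1' hw0' j with h | h
      · omega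
      · exact h.2
    rw [← ei] at b2
    rw [← ej] at b4
    set p := ⌊(i : ℝ) * w⌋₊ with hp
    set q := ⌊(j : ℝ) * w⌋₊ with hq
    -- `i w - p > j w - q` and `i w' - p < j w' - q`
    have c1 : (j : ℝ) * w - q < (i : ℝ) * w - p := by linarith
    have c2 : (i : ℝ) * w' - p < (j : ℝ) * w' - q := by linarith
    rcases le_total j i with hij | hij
    · have : (j : ℝ) ≤ i := by exact_mod_cast hij
      nlinarith
    · obtain ⟨d, rfl⟩ := Nat.exists_eq_add_of_le hij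
      have ed := e1 d (by omega)
      push_cast at c1 c2
      have d1 : (d : ℝ) * w < (q : ℝ) - p := by nlinarith
      have d2 : (q : ℝ) - p < (d : ℝ) * w' := by nlinarith
      have hqp : p ≤ q := by
        by_contra h
        push Not at h
        have h3 : (q : ℝ) < p := by exact_mod_cast h
        have h4 : 0 ≤ (d : ℝ) * w := mul_nonneg (Nat.cast_nonneg _) hw0
        linarith
      have d3 : ((q - p : ℕ) : ℝ) = (q : ℝ) - p := Nat.cast_sub hqp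
      have d4 : ⌊(d : ℝ) * w⌋₊ < q - p := by
        rw [Nat.floor_lt (mul_nonneg (Nat.cast_nonneg _) hw0), d3]
        exact d1
      have d5 : q - p ≤ ⌊(d : ℝ) * w'⌋₊ := by
        apply Nat.le_floor
        rw [d3]
        exact d2.le
      omega
  -- now one of the two sequences dominates the other
  by_cases hA : ∃ i ≤ J, ⌊u + (i : ℝ) * w⌋₊ = ⌊(i : ℝ) * w⌋₊ + 1 ∧
      ⌊u' + (i : ℝ) * w'⌋₊ = ⌊(i : ℝ) * w'⌋₊
  · obtain ⟨i, hi, a1, a2⟩ := hA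
    have dom : ∀ j ∈ Finset.range (J + 1), ⌊u' + (j : ℝ) * w'⌋₊ ≤ ⌊u + (j : ℝ) * w⌋₊ := by
      intro j hj
      have hj' : j ≤ J := by rw [Finset.mem_range] at hj; omega
      have ej := e1 j hj'
      rcases val u w hu0 hu1 hw0 j with h | h <;> rcases val u' w' hu0' hu1' hw0' j with h' | h'
      · omega
      · exact (cmp i hi j hj' a1 a2 h.1 h'.1).elim
      · omega
      · omega
    have h3 := (Finset.sum_eq_sum_iff_of_le dom).1 h2.symm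
    intro j hj
    exact (h3 j (Finset.mem_range.2 (by omega))).symm
  · have dom : ∀ j ∈ Finset.range (J + 1), ⌊u + (j : ℝ) * w⌋₊ ≤ ⌊u' + (j : ℝ) * w'⌋₊ := by
      intro j hj
      have hj' : j ≤ J := by rw [Finset.mem_range] at hj; omega
      have ej := e1 j hj'
      rcases val u w hu0 hu1 hw0 j with h | h <;> rcases val u' w' hu0' hu1' hw0' j with h' | h'
      · omega
      · omega
      · exact (hA ⟨j, hj', h.1, h'.1⟩).elim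
      · omega
    have h3 := (Finset.sum_eq_sum_iff_of_le dom).1 h2
    intro j hj
    exact h3 j (Finset.mem_range.2 (by omega))

theorem carry_eq {J : ℕ} {u w u' w' : ℝ} (hu0 : 0 ≤ u) (hu1 : u < 1) (hw0 : 0 ≤ w)
    (hu0' : 0 ≤ u') (hu1' : u' < 1) (hw0' : 0 ≤ w') (h1 : cd1 J w = cd1 J w')
    (h2 : cd2 J u w = cd2 J u' w') : ∀ j ≤ J, ⌊u + (j : ℝ) * w⌋₊ = ⌊u' + (j : ℝ) * w'⌋₊ := by
  rcases le_total w w' with h | h
  · exact carry_aux hu0 hu1 hw0 hu0' hu1' h h1 h2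
  · intro j hj
    exact (carry_aux hu0' hu1' hw0' hu0 hu1 h h1.symm h2.symm j hj).symm

theorem cd1_lt {J : ℕ} {w : ℝ} (hw1 : w < 1) : cd1 J w < 3 * (J + 1) ^ 2 := by
  unfold cd1
  have : ∑ j ∈ Finset.range (J + 1), ⌊(j : ℝ) * w⌋₊ ≤ ∑ _j ∈ Finset.range (J + 1), J := by
    apply Finset.sum_le_sum
    intro j hj
    rw [Finset.mem_range] at hj
    have h1 : (j : ℝ) * w ≤ j := by
      have : (0 : ℝ) ≤ j := Nat.cast_nonneg _
      nlinarith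
    have := Nat.floor_mono h1
    rw [Nat.floor_natCast] at this
    omega
  rw [Finset.sum_const, Finset.card_range, smul_eq_mul] at this
  nlinarith

theorem cd2_lt {J : ℕ} {u w : ℝ} (hu1 : u < 1) (hw1 : w < 1) : cd2 J u w < 3 * (J + 1) ^ 2 := by
  unfold cd2
  have : ∑ j ∈ Finset.range (J + 1), ⌊u + (j : ℝ) * w⌋₊ ≤ ∑ _j ∈ Finset.range (J + 1), (J + 1) := by
    apply Finset.sum_le_sum
    intro j hj
    rw [Finset.mem_range] at hj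
    have h1 : u + (j : ℝ) * w ≤ ((j + 1 : ℕ) : ℝ) := by
      have : (0 : ℝ) ≤ j := Nat.cast_nonneg _
      push_cast
      nlinarith
    have := Nat.floor_mono h1
    rw [Nat.floor_natCast] at this
    omega
  rw [Finset.sum_const, Finset.card_range, smul_eq_mul] at this
  nlinarith

/-- the carry sequence of a code -/
noncomputable def car (J : ℕ) (p : Fin (3 * (J + 1) ^ 2) × Fin (3 * (J + 1) ^ 2)) : ℕ → ℕ := by
  classical
  exact if h : ∃ uw : ℝ × ℝ, 0 ≤ uw.1 ∧ uw.1 < 1 ∧ 0 ≤ uw.2 ∧ uw.2 < 1 ∧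
      cd1 J uw.2 = p.1 ∧ cd2 J uw.1 uw.2 = p.2 then
    fun j => ⌊h.choose.1 + (j : ℝ) * h.choose.2⌋₊ else fun _ => 0

theorem car_le (J : ℕ) (p : Fin (3 * (J + 1) ^ 2) × Fin (3 * (J + 1) ^ 2)) (j : ℕ) :
    car J p j ≤ j + 1 := by
  unfold car
  split_ifs with h
  · obtain ⟨_, h1, h2, h3, _, _⟩ := h.choose_spec
    show ⌊h.choose.1 + (j : ℝ) * h.choose.2⌋₊ ≤ j + 1
    have h4 : h.choose.1 + (j : ℝ) * h.choose.2 ≤ ((j + 1 : ℕ) : ℝ) := by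
      have : (0 : ℝ) ≤ j := Nat.cast_nonneg _
      push_cast
      nlinarith
    have := Nat.floor_mono h4
    rwa [Nat.floor_natCast] at this
  · exact Nat.zero_le _

theorem exists_car (J : ℕ) (u w : ℝ) (hu0 : 0 ≤ u) (hu1 : u < 1) (hw0 : 0 ≤ w) (hw1 : w < 1) :
    ∃ p, ∀ j ≤ J, ⌊u + (j : ℝ) * w⌋₊ = car J p j := by
  refine ⟨(⟨cd1 J w, cd1_lt hw1⟩, ⟨cd2 J u w, cd2_lt hu1 hw1⟩), fun j hj => ?_⟩
  have h : ∃ uw : ℝ × ℝ, 0 ≤ uw.1 ∧ uw.1 < 1 ∧ 0 ≤ uw.2 ∧ uw.2 < 1 ∧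
      cd1 J uw.2 = (cd1 J w : ℕ) ∧ cd2 J uw.1 uw.2 = cd2 J u w :=
    ⟨(u, w), hu0, hu1, hw0, hw1, rfl, rfl⟩
  unfold car
  rw [dif_pos h]
  obtain ⟨h1, h2, h3, h4, h5, h6⟩ := h.choose_spec
  exact (carry_eq h1 h2 h3 hu0 hu1 hw0 h5 h6 j hj).symm

end Pool.Agent.W97.TL
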