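import Mathlib

/-!
Choice of the parameters, with brackets.
-/

set_option autoImplicit false

open Filter Topology

namespace Pool.Agent.W97.TL

/-- the fineness of the approximation of the coefficients -/
def fine2 (e G J : ℕ) : ℕ := (e + 4) * (J + 1) ^ (e + 1) * G + 1

/-- the number of cells per circle -/
def GG (e R : ℕ) : ℕ := 48 * 4 ^ e * (R ^ (2 ^ e + 2)) ^ (2 ^ e)

/-- first length -/
def JA (e R : ℕ) : ℕ := R ^ (2 ^ e) + e

/-- second length -/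
noncomputable def JB (e R : ℕ) (δ : ℝ) : ℕ :=
  R ^ (2 ^ e) * (⌈((R ^ (2 ^ e)).factorial : ℝ) / δ⌉₊ + 1) + e

theorem JB_bound (e R : ℕ) (hR : 1 ≤ R) (δ : ℝ) (hδ : 0 < δ) :
    (JB e R δ : ℝ) + 1 ≤ (1 / δ + 2 + (e + 1)) * 2 ^ (2 * 2 ^ e * R ^ (2 ^ e + 1)) := by
  set E := 2 ^ e with hE
  set m := R ^ E with hm
  have hm1 : 1 ≤ m := Nat.one_le_pow _ _ hR
  have hmm : (m : ℝ) * (m.factorial : ℝ) ≤ 2 ^ (2 * E * R ^ (E + 1)) := by
    have b1 : m * m.factorial ≤ m ^ (m + 1) := by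
      rw [pow_succ, mul_comm]
      exact Nat.mul_le_mul_right _ (Nat.factorial_le_pow m)
    have b2 : m ^ (m + 1) ≤ 2 ^ (2 * E * R ^ (E + 1)) := by
      rw [hm, ← pow_mul]
      calc R ^ (E * (R ^ E + 1)) ≤ (2 ^ R) ^ (E * (R ^ E + 1)) :=
            Nat.pow_le_pow_left Nat.lt_two_pow_self.le _
        _ = 2 ^ (R * (E * (R ^ E + 1))) := by rw [← pow_mul]
        _ ≤ 2 ^ (2 * E * R ^ (E + 1)) := by
          apply Nat.pow_le_pow_right (by norm_num)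
          rw [pow_succ]
          have : 1 ≤ R ^ E := hm1
          nlinarith [Nat.zero_le (R * E)]
    exact_mod_cast b1.trans b2
  have hmf : (1 : ℝ) ≤ (m : ℝ) * (m.factorial : ℝ) := by
    have : 1 ≤ m * m.factorial := Nat.mul_pos hm1 (Nat.factorial_pos _)
    exact_mod_cast this
  have b1 : (⌈(m.factorial : ℝ) / δ⌉₊ : ℝ) < m.factorial / δ + 1 :=
    Nat.ceil_lt_add_one (by positivity)
  have b2 : (1 : ℝ) ≤ m.factorial := by exact_mod_cast Nat.factorial_pos m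
  have b3 : (m : ℝ) * (⌈(m.factorial : ℝ) / δ⌉₊ + 1) ≤
      (1 / δ + 2) * ((m : ℝ) * (m.factorial : ℝ)) := by
    have b4 : (⌈(m.factorial : ℝ) / δ⌉₊ : ℝ) + 1 ≤ (1 / δ + 2) * m.factorial := by
      have e' : (m.factorial : ℝ) / δ = 1 / δ * m.factorial := by ring
      have e'' : (1 / δ + 2) * (m.factorial : ℝ) = m.factorial / δ + 2 * m.factorial := by
        rw [e']; ring
      rw [e'']
      linarith
    calc (m : ℝ) * (⌈(m.factorial : ℝ) / δ⌉₊ + 1) ≤ (m : ℝ) * ((1 / δ + 2) * m.factorial) :=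
          mul_le_mul_of_nonneg_left b4 (Nat.cast_nonneg _)
      _ = _ := by ring
  have b5 : ((e : ℝ) + 1) ≤ (e + 1) * ((m : ℝ) * (m.factorial : ℝ)) :=
    le_mul_of_one_le_right (by positivity) hmf
  have e0 : (JB e R δ : ℝ) = (m : ℝ) * (⌈(m.factorial : ℝ) / δ⌉₊ + 1) + e := by
    have e0' : JB e R δ = m * (⌈(m.factorial : ℝ) / δ⌉₊ + 1) + e := rfl
    rw [e0']
    push_cast
    ring
  rw [e0]
  calc (m : ℝ) * (⌈(m.factorial : ℝ) / δ⌉₊ + 1) + e + 1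
      ≤ (1 / δ + 2) * ((m : ℝ) * (m.factorial : ℝ)) +
        (e + 1) * ((m : ℝ) * (m.factorial : ℝ)) := by linarith
    _ = (1 / δ + 2 + (e + 1)) * ((m : ℝ) * (m.factorial : ℝ)) := by ring
    _ ≤ (1 / δ + 2 + (e + 1)) * 2 ^ (2 * E * R ^ (E + 1)) :=
      mul_le_mul_of_nonneg_left hmm (by positivity)

/-- long progressions -/
theorem tail (e b k D : ℕ) (c : ℝ) (hc0 : 0 < c) : ∀ᶠ R : ℕ in atTop, ∀ J : ℕ,
    (J : ℝ) + 1 ≤ c * 2 ^ (D * R ^ (2 ^ e + 1)) →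
    (fine2 e (GG e R) J : ℝ) ^ k * (2 * (1 - 1 / 2 ^ b) ^ (R ^ (2 ^ e + 2))) < 1 / 3 := by
  set E := 2 ^ e with hE
  set lam : ℝ := 1 - 1 / 2 ^ b with hlam
  have hl0 : 0 ≤ lam := by
    rw [hlam, sub_nonneg, div_le_one (by positivity)]
    exact one_le_pow₀ (by norm_num)
  have hl1 : lam < 1 := by
    rw [hlam]
    have : (0 : ℝ) < 1 / 2 ^ b := by positivity
    linarith
  set C2 : ℝ := ((e + 4 : ℕ) : ℝ) * c ^ (e + 1) * (48 * 4 ^ e) + 1 with hC2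
  set D2 : ℕ := D * (e + 1) + (E + 2) * E with hD2
  have ev2 : ∀ᶠ R : ℕ in atTop, (2 : ℝ) ^ (D2 * k) * lam ^ R ≤ 1 / 2 := by
    have h1 := (tendsto_pow_atTop_nhds_zero_of_lt_one hl0 hl1).const_mul ((2 : ℝ) ^ (D2 * k))
    rw [mul_zero] at h1
    exact (h1.eventually (gt_mem_nhds (show (0 : ℝ) < 1 / 2 by norm_num))).mono (fun _ h => h.le)
  have ev3 : ∀ᶠ R : ℕ in atTop, 2 * C2 ^ k * (1 / 2 : ℝ) ^ R < 1 / 3 := by
    have h1 := (tendsto_pow_atTop_nhds_zero_of_lt_one (r := (1 / 2 : ℝ)) (by norm_num)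
      (by norm_num)).const_mul (2 * C2 ^ k)
    rw [mul_zero] at h1
    exact h1.eventually (gt_mem_nhds (by norm_num))
  filter_upwards [ev2, ev3, eventually_ge_atTop 1] with R h2 h3 hR J hJ
  set X := R ^ (E + 1) with hX
  have hRX : R ≤ X := by
    rw [hX]
    calc R = R ^ 1 := (pow_one R).symm
      _ ≤ R ^ (E + 1) := Nat.pow_le_pow_right hR (Nat.le_add_left 1 E)
  have hR2 : (R : ℝ) ≤ 2 ^ R := by exact_mod_cast Nat.lt_two_pow_self.le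
  have hG : (48 * 4 ^ e * ((R : ℝ) ^ (E + 2)) ^ E) ≤ 48 * 4 ^ e * 2 ^ ((E + 2) * E * X) := by
    apply mul_le_mul_of_nonneg_left _ (by positivity)
    rw [← pow_mul]
    calc (R : ℝ) ^ ((E + 2) * E) ≤ (2 ^ R) ^ ((E + 2) * E) := pow_le_pow_left₀ (by positivity) hR2 _
      _ = 2 ^ (R * ((E + 2) * E)) := by rw [← pow_mul]
      _ ≤ 2 ^ ((E + 2) * E * X) := by
        apply pow_le_pow_right₀ (by norm_num)
        rw [mul_comm]
        exact Nat.mul_le_mul_left _ hRX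
  have hQ : (fine2 e (GG e R) J : ℝ) ≤ C2 * 2 ^ (D2 * X) := by
    have a2 := pow_le_pow_left₀ (by positivity) hJ (e + 1)
    have a3 : (1 : ℝ) ≤ (2 : ℝ) ^ (D2 * X) := one_le_pow₀ (by norm_num)
    have a4 : ((e : ℝ) + 4) * (c * 2 ^ (D * X)) ^ (e + 1) *
        (48 * 4 ^ e * 2 ^ ((E + 2) * E * X)) =
        (((e + 4 : ℕ) : ℝ) * c ^ (e + 1) * (48 * 4 ^ e)) * 2 ^ (D2 * X) := by
      have : D2 * X = D * X * (e + 1) + (E + 2) * E * X := by rw [hD2]; ring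
      rw [this, mul_pow, ← pow_mul, pow_add]
      push_cast
      ring
    have a5 : (fine2 e (GG e R) J : ℝ) = ((e : ℝ) + 4) * ((J : ℝ) + 1) ^ (e + 1) *
          (48 * 4 ^ e * ((R : ℝ) ^ (E + 2)) ^ E) + 1 := by
      unfold fine2 GG
      push_cast
      ring
    rw [a5]
    calc _ ≤ ((e : ℝ) + 4) * (c * 2 ^ (D * X)) ^ (e + 1) *
          (48 * 4 ^ e * 2 ^ ((E + 2) * E * X)) + 2 ^ (D2 * X) := by
          apply add_le_add _ a3
          apply mul_le_mul _ hG (by positivity) (by positivity)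
          exact mul_le_mul_of_nonneg_left a2 (by positivity)
      _ = C2 * 2 ^ (D2 * X) := by rw [a4, hC2]; ring
  have hQk := pow_le_pow_left₀ (Nat.cast_nonneg _) hQ k
  have hC20 : 0 < C2 := by rw [hC2]; positivity
  have e1 : R ^ (E + 2) = R * X := by rw [hX]; ring
  calc _ ≤ (C2 * 2 ^ (D2 * X)) ^ k * (2 * lam ^ (R ^ (E + 2))) :=
        mul_le_mul_of_nonneg_right hQk (by positivity)
    _ = 2 * C2 ^ k * ((2 ^ (D2 * k) * lam ^ R) ^ X) := by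
      rw [e1, mul_pow, mul_pow, ← pow_mul, ← pow_mul, ← pow_mul]
      have : D2 * X * k = D2 * k * X := by ring
      rw [this]
      ring
    _ ≤ 2 * C2 ^ k * ((1 / 2) ^ X) := by
      apply mul_le_mul_of_nonneg_left _ (by positivity)
      exact pow_le_pow_left₀ (by positivity) h2 _
    _ ≤ 2 * C2 ^ k * ((1 / 2) ^ R) := by
      apply mul_le_mul_of_nonneg_left _ (by positivity)
      exact pow_le_pow_of_le_one (by norm_num) (by norm_num) hRX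
    _ < 1 / 3 := h3

theorem head (e b k : ℕ) : ∀ᶠ R : ℕ in atTop,
    (fine2 e (GG e R) (JA e R) : ℝ) ^ k * (2 * (1 - 1 / 2 ^ b) ^ R) < 1 / 3 := by
  set E := 2 ^ e with hE
  set lam : ℝ := 1 - 1 / 2 ^ b with hlam
  have hl0 : 0 ≤ lam := by
    rw [hlam, sub_nonneg, div_le_one (by positivity)]
    exact one_le_pow₀ (by norm_num)
  have hl1 : lam < 1 := by
    rw [hlam]
    have : (0 : ℝ) < 1 / 2 ^ b := by positivity
    linarith
  set C1 : ℝ := ((e + 4 : ℕ) : ℝ) ^ (e + 2) * (48 * 4 ^ e) + 1 with hC1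
  set D1 : ℕ := E * (e + 1) + (E + 2) * E with hD1
  have ev1 : ∀ᶠ R : ℕ in atTop, 2 * C1 ^ k * ((R : ℝ) ^ (D1 * k) * lam ^ R) < 1 / 3 := by
    have h1 := (tendsto_pow_const_mul_const_pow_of_lt_one (D1 * k) hl0 hl1).const_mul (2 * C1 ^ k)
    rw [mul_zero] at h1
    exact h1.eventually (gt_mem_nhds (by norm_num))
  filter_upwards [ev1, eventually_ge_atTop 1] with R h1 hR
  have hR1 : (1 : ℝ) ≤ R := by exact_mod_cast hR
  have hRE : (1 : ℝ) ≤ (R : ℝ) ^ E := one_le_pow₀ hR1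
  have hQ : (fine2 e (GG e R) (JA e R) : ℝ) ≤ C1 * (R : ℝ) ^ D1 := by
    unfold fine2 GG JA
    push_cast
    have a1 : (R : ℝ) ^ E + e + 1 ≤ ((e + 4 : ℕ) : ℝ) * (R : ℝ) ^ E := by
      push_cast
      have : (0 : ℝ) ≤ (e : ℝ) := Nat.cast_nonneg _
      nlinarith
    have a2 : ((R : ℝ) ^ E + e + 1) ^ (e + 1) ≤ (((e + 4 : ℕ) : ℝ) * (R : ℝ) ^ E) ^ (e + 1) :=
      pow_le_pow_left₀ (by positivity) a1 _
    have a3 : (1 : ℝ) ≤ (R : ℝ) ^ D1 := one_le_pow₀ hR1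
    have a4 : ((e : ℝ) + 4) * (((e + 4 : ℕ) : ℝ) * (R : ℝ) ^ E) ^ (e + 1) *
        (48 * 4 ^ e * ((R : ℝ) ^ (E + 2)) ^ E) =
        (((e + 4 : ℕ) : ℝ) ^ (e + 2) * (48 * 4 ^ e)) * (R : ℝ) ^ D1 := by
      rw [hD1, mul_pow, ← pow_mul, ← pow_mul, pow_add (R : ℝ) (E * (e + 1))]
      push_cast
      ring
    calc ((e : ℝ) + 4) * ((R : ℝ) ^ E + e + 1) ^ (e + 1) * (48 * 4 ^ e * ((R : ℝ) ^ (E + 2)) ^ E) + 1
        ≤ ((e : ℝ) + 4) * (((e + 4 : ℕ) : ℝ) * (R : ℝ) ^ E) ^ (e + 1) *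
          (48 * 4 ^ e * ((R : ℝ) ^ (E + 2)) ^ E) + (R : ℝ) ^ D1 := by
          apply add_le_add _ a3
          apply mul_le_mul_of_nonneg_right _ (by positivity)
          apply mul_le_mul_of_nonneg_left a2 (by positivity)
      _ = C1 * (R : ℝ) ^ D1 := by rw [a4, hC1]; ring
  have hQk := pow_le_pow_left₀ (Nat.cast_nonneg _) hQ k
  calc _ ≤ (C1 * (R : ℝ) ^ D1) ^ k * (2 * lam ^ R) :=
        mul_le_mul_of_nonneg_right hQk (by positivity)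
    _ = 2 * C1 ^ k * ((R : ℝ) ^ (D1 * k) * lam ^ R) := by rw [mul_pow, ← pow_mul]; ring
    _ < 1 / 3 := h1

/-- the smallness threshold for the linear coordinates -/
noncomputable def eta (e R N : ℕ) (δ : ℝ) : ℝ := 1 / (((N + 1) * (JB e R δ + 1) : ℕ) : ℝ)

theorem params2 (e b k N : ℕ) (δ : ℝ) (hδ : 0 < δ) : ∃ R : ℕ, 0 < R ∧
    (fine2 e (GG e R) (JA e R) : ℝ) ^ k * (2 * (1 - 1 / 2 ^ b) ^ R) < 1 / 3 ∧
    (fine2 e (GG e R) (JB e R δ) : ℝ) ^ k * (2 * (1 - 1 / 2 ^ b) ^ (R ^ (2 ^ e + 2))) < 1 / 3 ∧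
    (fine2 e (GG e R) (JB e R (eta e R N δ)) : ℝ) ^ k *
      (2 * (1 - 1 / 2 ^ b) ^ (R ^ (2 ^ e + 2))) < 1 / 3 := by
  set c : ℝ := 1 / δ + 2 + (e + 1) with hc
  have hc0 : 0 < c := by rw [hc]; positivity
  set c3 : ℝ := ((N : ℝ) + 1) * c + 2 + (e + 1) with hc3
  have hc30 : 0 < c3 := by rw [hc3]; positivity
  obtain ⟨R, ⟨⟨h1, h2⟩, h3⟩, hR⟩ := (((head e b k).and (tail e b k (2 * 2 ^ e) c hc0)).and
    (tail e b k (2 * 2 ^ e + 2 * 2 ^ e) c3 hc30)).and (eventually_ge_atTop 1) |>.exists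
  have hJB := JB_bound e R hR δ hδ
  refine ⟨R, hR, h1, h2 _ hJB, h3 _ ?_⟩
  have heta : 0 < eta e R N δ := by
    unfold eta
    have : (0 : ℝ) < (((N + 1) * (JB e R δ + 1) : ℕ) : ℝ) := by
      rw [Nat.cast_pos]; positivity
    positivity
  refine (JB_bound e R hR _ heta).trans ?_
  have e1 : 1 / eta e R N δ = ((N : ℝ) + 1) * ((JB e R δ : ℝ) + 1) := by
    unfold eta
    push_cast
    rw [one_div_one_div]
  rw [e1]
  set Y : ℝ := 2 ^ (2 * 2 ^ e * R ^ (2 ^ e + 1)) with hY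
  have e2 : (2 : ℝ) ^ ((2 * 2 ^ e + 2 * 2 ^ e) * R ^ (2 ^ e + 1)) = Y * Y := by
    rw [hY, ← pow_add, add_mul]
  rw [e2]
  have hY1 : 1 ≤ Y := one_le_pow₀ (by norm_num)
  have h4 : ((N : ℝ) + 1) * ((JB e R δ : ℝ) + 1) + 2 + (e + 1) ≤ c3 * Y := by
    have h5 : ((N : ℝ) + 1) * ((JB e R δ : ℝ) + 1) ≤ ((N : ℝ) + 1) * (c * Y) :=
      mul_le_mul_of_nonneg_left hJB (by positivity)
    have h6 : (2 : ℝ) + (e + 1) ≤ (2 + (e + 1)) * Y :=
      le_mul_of_one_le_right (by positivity) hY1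
    rw [hc3]
    calc _ ≤ ((N : ℝ) + 1) * (c * Y) + (2 + (e + 1)) * Y := by linarith
      _ = _ := by ring
  calc _ ≤ (c3 * Y) * Y := mul_le_mul_of_nonneg_right h4 (by positivity)
    _ = c3 * (Y * Y) := by ring

end Pool.Agent.W97.TL
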