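import Pool.Agent.W97.TL.Rich
import Pool.Agent.W97.TL.Params2
import Pool.Agent.W97.TL.Carry

/-!
Blocks of cells and the approximation of the coefficients, with brackets.
-/

set_option autoImplicit false

namespace Pool.Agent.W97.TL

variable {ι : Type} [Fintype ι] [DecidableEq ι]

/-- codes of carry sequences -/
abbrev Code (J : ℕ) : Type := Fin (3 * (J + 1) ^ 2) × Fin (3 * (J + 1) ^ 2)

/-- index set of the basic functions -/
abbrev TT (e : ℕ) : Type := Fin (e + 2) ⊕ Bool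

/-- basic functions -/
noncomputable def phi (e J : ℕ) (p : Code J) : TT e → ℕ → ℕ
  | Sum.inl l, j => j ^ (l : ℕ)
  | Sum.inr false, j => car J p j
  | Sum.inr true, j => j * car J p j

theorem phi_le (e J : ℕ) (he : 1 ≤ e) (p : Code J) (t : TT e) (j : ℕ) (hj : j ≤ J) :
    phi e J p t j ≤ (J + 1) ^ (e + 1) := by
  have h2 : (J + 1) ^ 2 ≤ (J + 1) ^ (e + 1) := Nat.pow_le_pow_right (by omega) (by omega)
  rcases t with l | b
  · show j ^ (l : ℕ) ≤ _
    calc j ^ (l : ℕ) ≤ (J + 1) ^ (l : ℕ) := Nat.pow_le_pow_left (by omega) _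
      _ ≤ _ := Nat.pow_le_pow_right (by omega) (by have := l.2; omega)
  · have h1 := car_le J p j
    cases b
    · show car J p j ≤ _
      nlinarith
    · show j * car J p j ≤ _
      have : j * car J p j ≤ J * (J + 1) := Nat.mul_le_mul hj (h1.trans (by omega))
      nlinarith

/-- the function with coefficients `b t / Q` -/
noncomputable def ap2 (e J Q : ℕ) (pb : Code J × (TT e → Fin Q)) (j : ℕ) : ℝ :=
  ∑ t : TT e, ((pb.2 t : ℕ) : ℝ) / Q * (phi e J pb.1 t j : ℝ)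

/-- the block of cells at time `j` -/
noncomputable def blk2 (G : ℕ) (x : ι → ℕ → ℝ) (j : ℕ) : Finset (ι → ZMod G) :=
  Fintype.piFinset (fun i => ({((⌊(G : ℝ) * x i j⌋ : ℤ) : ZMod G),
    ((⌊(G : ℝ) * x i j⌋ : ℤ) : ZMod G) + 1} : Finset (ZMod G)))

theorem card_blk2 (G : ℕ) (x : ι → ℕ → ℝ) (j : ℕ) :
    (blk2 G x j).card ≤ 2 ^ Fintype.card ι := by
  unfold blk2
  rw [Fintype.card_piFinset]
  calc _ ≤ ∏ _i : ι, 2 := Finset.prod_le_prod' (fun i _ => Finset.card_le_two)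
    _ = _ := by rw [Finset.prod_const, Finset.card_univ]

theorem blk2_disjoint (G : ℕ) [NeZero G] (y : ι → ℕ → ℝ) (j j' : ℕ) (i : ι)
    (h : (4 : ℝ) / G ≤ nn (y i j - y i j')) : Disjoint (blk2 G y j) (blk2 G y j') := by
  have hG : (0 : ℝ) < G := Nat.cast_pos.2 (Nat.pos_of_ne_zero (NeZero.ne G))
  rw [Finset.disjoint_left]
  intro z hz hz'
  unfold blk2 at hz hz'
  rw [Fintype.mem_piFinset] at hz hz'
  have h1 := hz i
  have h2 := hz' i
  rw [Finset.mem_insert, Finset.mem_singleton] at h1 h2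
  set x := y i j with hx
  set x' := y i j' with hx'
  set u := ⌊(G : ℝ) * x⌋ with hu
  set u' := ⌊(G : ℝ) * x'⌋ with hu'
  have key : ∃ ε : ℤ, -1 ≤ ε ∧ ε ≤ 1 ∧ (((u - u' - ε : ℤ)) : ZMod G) = 0 := by
    rcases h1 with h1 | h1 <;> rcases h2 with h2 | h2
    · refine ⟨0, by norm_num, by norm_num, ?_⟩
      push_cast
      rw [← h1, ← h2]; ring
    · refine ⟨1, by norm_num, by norm_num, ?_⟩
      push_cast
      rw [← h1, h2]; ring
    · refine ⟨-1, by norm_num, by norm_num, ?_⟩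
      have : (u : ZMod G) = z i - 1 := by rw [h1]; ring
      push_cast
      rw [this, ← h2]; ring
    · refine ⟨0, by norm_num, by norm_num, ?_⟩
      have e1 : (u : ZMod G) = z i - 1 := by rw [h1]; ring
      have e2 : (u' : ZMod G) = z i - 1 := by rw [h2]; ring
      push_cast
      rw [e1, e2]; ring
  obtain ⟨ε, hε1, hε2, hε3⟩ := key
  obtain ⟨w, hw⟩ := (ZMod.intCast_zmod_eq_zero_iff_dvd _ _).1 hε3
  have hw' : (u : ℝ) - u' - ε = G * w := by exact_mod_cast hw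
  have f1 := Int.floor_le ((G : ℝ) * x)
  have f2 := Int.lt_floor_add_one ((G : ℝ) * x)
  have f3 := Int.floor_le ((G : ℝ) * x')
  have f4 := Int.lt_floor_add_one ((G : ℝ) * x')
  rw [← hu] at f1 f2
  rw [← hu'] at f3 f4
  have g1 : (-1 : ℝ) ≤ ε := by exact_mod_cast hε1
  have g2 : (ε : ℝ) ≤ 1 := by exact_mod_cast hε2
  have h3 : |(G : ℝ) * (x - x' - w)| < 2 := by
    rw [abs_lt]
    constructor <;> nlinarith
  have h4 : (G : ℝ) * nn (x - x') < 2 := by
    refine lt_of_le_of_lt ?_ h3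
    rw [abs_mul, abs_of_pos hG]
    exact mul_le_mul_of_nonneg_left (nn_le _ w) hG.le
  have h5 : 4 ≤ (G : ℝ) * nn (x - x') := by
    rw [div_le_iff₀ hG] at h
    linarith
  linarith

/-- times at which the blocks are disjoint -/
theorem times2 (G n J : ℕ) [NeZero G] (x : ι → ℕ → ℝ)
    (h : ∃ i, Rich (x i) n J ((4 : ℝ) / G)) :
    ∃ t : ℕ → ℕ, (∀ a < n, t a ≤ J) ∧
      ∀ a < n, ∀ a' < n, a ≠ a' → Disjoint (blk2 G x (t a)) (blk2 G x (t a')) := by
  obtain ⟨i, t, h1, h2⟩ := h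
  refine ⟨fun a => if h : a < n then t ⟨a, h⟩ else 0, fun a ha => ?_, fun a ha a' ha' hne => ?_⟩
  · simp only [ha, dif_pos]
    exact h1 _
  · simp only [ha, ha', dif_pos]
    apply blk2_disjoint G x _ _ i
    apply h2
    intro h3
    exact hne (congrArg Fin.val h3)

/-- approximation of the coefficients -/
theorem approx2 (e G J : ℕ) (he : 1 ≤ e) (p : Code J) (b : TT e → ℝ) :
    ∃ b' : TT e → Fin (fine2 e G J), ∀ j ≤ J, ∃ z : ℤ,
      0 ≤ (∑ t, b t * (phi e J p t j : ℝ)) - ap2 e J (fine2 e G J) (p, b') j - z ∧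
      (G : ℝ) * ((∑ t, b t * (phi e J p t j : ℝ)) - ap2 e J (fine2 e G J) (p, b') j - z) < 1 := by
  set Q := fine2 e G J with hQ
  have hQpos : 0 < Q := by rw [hQ]; unfold fine2; omega
  have hQr : (0 : ℝ) < Q := Nat.cast_pos.2 hQpos
  have hlt : ∀ l, ⌊(Q : ℝ) * Int.fract (b l)⌋₊ < Q := by
    intro l
    rw [Nat.floor_lt (mul_nonneg hQr.le (Int.fract_nonneg _))]
    calc (Q : ℝ) * Int.fract (b l) < Q * 1 := mul_lt_mul_of_pos_left (Int.fract_lt_one _) hQr
      _ = Q := mul_one _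
  refine ⟨fun l => ⟨⌊(Q : ℝ) * Int.fract (b l)⌋₊, hlt l⟩, fun j hj => ?_⟩
  refine ⟨∑ t : TT e, ⌊b t⌋ * (phi e J p t j : ℤ), ?_⟩
  have e1 : (∑ t, b t * (phi e J p t j : ℝ)) -
      ap2 e J Q (p, fun l => ⟨⌊(Q : ℝ) * Int.fract (b l)⌋₊, hlt l⟩) j -
      ((∑ t : TT e, ⌊b t⌋ * (phi e J p t j : ℤ) : ℤ) : ℝ) =
      ∑ t : TT e, (Int.fract (b t) - (⌊(Q : ℝ) * Int.fract (b t)⌋₊ : ℝ) / Q) *
        (phi e J p t j : ℝ) := by
    unfold ap2
    rw [Int.cast_sum, ← Finset.sum_sub_distrib, ← Finset.sum_sub_distrib]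
    apply Finset.sum_congr rfl
    intro l _
    unfold Int.fract
    push_cast
    ring
  rw [e1]
  have h0 : ∀ l, 0 ≤ Int.fract (b l) - (⌊(Q : ℝ) * Int.fract (b l)⌋₊ : ℝ) / Q := by
    intro l
    rw [sub_nonneg, div_le_iff₀ hQr, mul_comm (Int.fract (b l))]
    exact Nat.floor_le (mul_nonneg hQr.le (Int.fract_nonneg _))
  have h1 : ∀ l, Int.fract (b l) - (⌊(Q : ℝ) * Int.fract (b l)⌋₊ : ℝ) / Q ≤ 1 / Q := by
    intro l
    rw [sub_le_iff_le_add, ← add_div, le_div_iff₀ hQr, mul_comm (Int.fract (b l)), add_comm]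
    exact (Nat.lt_floor_add_one _).le
  have h2 : ∀ t : TT e, (phi e J p t j : ℝ) ≤ ((J : ℝ) + 1) ^ (e + 1) := by
    intro t
    exact_mod_cast phi_le e J he p t j hj
  constructor
  · exact Finset.sum_nonneg (fun l _ => mul_nonneg (h0 l) (by positivity))
  · have h3 : ∑ t : TT e, (Int.fract (b t) - (⌊(Q : ℝ) * Int.fract (b t)⌋₊ : ℝ) / Q) *
        (phi e J p t j : ℝ) ≤ ∑ _t : TT e, 1 / Q * ((J : ℝ) + 1) ^ (e + 1) := by
      apply Finset.sum_le_sum
      intro l _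
      exact mul_le_mul (h1 l) (h2 l) (by positivity) (by positivity)
    rw [Finset.sum_const, Finset.card_univ, Fintype.card_sum, Fintype.card_fin, Fintype.card_bool,
      nsmul_eq_mul] at h3
    have hG0 : (0 : ℝ) ≤ G := Nat.cast_nonneg _
    have h4 := mul_le_mul_of_nonneg_left h3 hG0
    refine lt_of_le_of_lt h4 ?_
    have e2 : (G : ℝ) * (((e + 2 + 2 : ℕ) : ℝ) * (1 / Q * ((J : ℝ) + 1) ^ (e + 1))) =
        (((e + 4) * (J + 1) ^ (e + 1) * G : ℕ) : ℝ) / Q := by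
      push_cast; ring
    rw [e2, div_lt_one hQr]
    have : (e + 4) * (J + 1) ^ (e + 1) * G < Q := by rw [hQ]; unfold fine2; omega
    exact_mod_cast this

/-- the net -/
abbrev Net (ι : Type) (e G J : ℕ) : Type := ι → Code J × (TT e → Fin (fine2 e G J))

/-- the functions of a net element -/
noncomputable def nf {e G J : ℕ} (pb : Net ι e G J) : ι → ℕ → ℝ :=
  fun i => ap2 e J (fine2 e G J) (pb i)

/-- the approximated system is rich and the cells stay in the blocks -/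
theorem key2 (e G J n : ℕ) (he : 1 ≤ e) [NeZero G] (y : ι → ℕ → ℝ) (p : ι → Code J)
    (b : ι → TT e → ℝ)
    (hy : ∀ i, ∀ j ≤ J, y i j = ∑ t, b i t * (phi e J (p i) t j : ℝ)) (i0 : ι)
    (hrich : Rich (y i0) n J ((6 : ℝ) / G)) :
    ∃ pb : Net ι e G J, (∃ i, Rich (nf pb i) n J ((4 : ℝ) / G)) ∧
      ∀ j ≤ J, (fun i => ((⌊(G : ℝ) * y i j⌋ : ℤ) : ZMod G)) ∈ blk2 G (nf pb) j := by
  have hG : (0 : ℝ) < G := Nat.cast_pos.2 (Nat.pos_of_ne_zero (NeZero.ne G))
  choose b' hb' using fun i => approx2 e G J he (p i) (b i)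
  refine ⟨fun i => (p i, b' i), ⟨i0, ?_⟩, ?_⟩
  · obtain ⟨t, h1, h2⟩ := hrich
    refine ⟨t, h1, fun a a' hne => ?_⟩
    have h3 := h2 a a' hne
    show _ ≤ nn (ap2 e J (fine2 e G J) (p i0, b' i0) (t a) -
      ap2 e J (fine2 e G J) (p i0, b' i0) (t a'))
    have close : ∀ j ≤ J, nn (y i0 j - ap2 e J (fine2 e G J) (p i0, b' i0) j) ≤ 1 / G := by
      intro j hj
      obtain ⟨z, hz1, hz2⟩ := hb' i0 j hj
      rw [← hy i0 j hj] at hz1 hz2
      refine (nn_le _ z).trans ?_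
      rw [abs_of_nonneg hz1, le_div_iff₀ hG, mul_comm]
      exact hz2.le
    have c1 := close _ (h1 a)
    have c2 := close _ (h1 a')
    set A := ap2 e J (fine2 e G J) (p i0, b' i0) (t a)
    set B := ap2 e J (fine2 e G J) (p i0, b' i0) (t a')
    have e1 : y i0 (t a) - y i0 (t a') =
        ((y i0 (t a) - A) - (y i0 (t a') - B)) + (A - B) := by ring
    rw [e1] at h3
    have c3 := nn_add_le ((y i0 (t a) - A) - (y i0 (t a') - B)) (A - B)
    have c4 := nn_sub_le (y i0 (t a) - A) (y i0 (t a') - B)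
    have c5 : (6 : ℝ) / G = 4 / G + (1 / G + 1 / G) := by ring
    linarith
  · intro j hj
    unfold blk2
    rw [Fintype.mem_piFinset]
    intro i
    obtain ⟨z, hz1, hz2⟩ := hb' i j hj
    rw [← hy i j hj] at hz1 hz2
    rw [Finset.mem_insert, Finset.mem_singleton]
    show ((⌊(G : ℝ) * y i j⌋ : ℤ) : ZMod G) =
        ((⌊(G : ℝ) * ap2 e J (fine2 e G J) (p i, b' i) j⌋ : ℤ) : ZMod G) ∨
      ((⌊(G : ℝ) * y i j⌋ : ℤ) : ZMod G) =
        ((⌊(G : ℝ) * ap2 e J (fine2 e G J) (p i, b' i) j⌋ : ℤ) : ZMod G) + 1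
    set x := ap2 e J (fine2 e G J) (p i, b' i) j with hx
    set u := ⌊(G : ℝ) * x⌋ with hu
    have f1 := Int.floor_le ((G : ℝ) * x)
    have f2 := Int.lt_floor_add_one ((G : ℝ) * x)
    rw [← hu] at f1 f2
    have hz1' : 0 ≤ (G : ℝ) * (y i j - x - z) := mul_nonneg hG.le hz1
    have hGz : (((G : ℤ) * z : ℤ) : ZMod G) = 0 := by
      push_cast
      rw [ZMod.natCast_self, zero_mul]
    have h6 : ⌊(G : ℝ) * y i j⌋ = u + G * z ∨ ⌊(G : ℝ) * y i j⌋ = u + G * z + 1 := by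
      by_cases hc : (G : ℝ) * y i j < u + G * z + 1
      · left
        rw [Int.floor_eq_iff]
        push_cast
        constructor
        · nlinarith
        · linarith
      · right
        push Not at hc
        rw [Int.floor_eq_iff]
        push_cast
        constructor
        · linarith
        · nlinarith
    rcases h6 with h6 | h6
    · left
      rw [h6, Int.cast_add, hGz, add_zero]
    · right
      rw [h6, Int.cast_add, Int.cast_add, hGz, add_zero, Int.cast_one]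

theorem card_net (e G J : ℕ) (he : 1 ≤ e) (hG : 0 < G) :
    Fintype.card (Net ι e G J) ≤ fine2 e G J ^ (Fintype.card ι * (e + 6)) := by
  rw [Fintype.card_fun, Fintype.card_prod, Fintype.card_prod, Fintype.card_fun, Fintype.card_fin,
    Fintype.card_fin, Fintype.card_sum, Fintype.card_fin, Fintype.card_bool]
  have h1 : 3 * (J + 1) ^ 2 ≤ fine2 e G J := by
    unfold fine2
    have h2 : (J + 1) ^ 2 ≤ (J + 1) ^ (e + 1) := Nat.pow_le_pow_right (by omega) (by omega)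
    have h3 : 3 * (J + 1) ^ 2 ≤ (e + 4) * (J + 1) ^ (e + 1) := Nat.mul_le_mul (by omega) h2
    have h4 : (e + 4) * (J + 1) ^ (e + 1) ≤ (e + 4) * (J + 1) ^ (e + 1) * G :=
      Nat.le_mul_of_pos_right _ hG
    omega
  calc (3 * (J + 1) ^ 2 * (3 * (J + 1) ^ 2) * fine2 e G J ^ (e + 2 + 2)) ^ Fintype.card ι
      ≤ (fine2 e G J * fine2 e G J * fine2 e G J ^ (e + 2 + 2)) ^ Fintype.card ι := by
        apply Nat.pow_le_pow_left
        exact Nat.mul_le_mul_right _ (Nat.mul_le_mul h1 h1)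
    _ = fine2 e G J ^ (Fintype.card ι * (e + 6)) := by
        rw [mul_comm (Fintype.card ι), pow_mul]
        congr 1
        ring

end Pool.Agent.W97.TL
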