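import Pool.Agent.W97.TL.Rich

/-!
Powers along arithmetic progressions are rich.
-/

set_option autoImplicit false

namespace Pool.Agent.W97.TL

/-- iterated differences, along `ℕ`, of a real function -/
theorem dif_iter (F : ℝ → ℝ) (c t : ℝ) (n : ℕ) :
    ∀ j : ℕ, dif^[n] (fun j : ℕ => c * F (j + t)) j = c * ((fwdDiff (1 : ℝ))^[n] F) (j + t) := by
  induction n with
  | zero => intro j; rfl
  | succ n ih =>
    intro j
    rw [Function.iterate_succ_apply', Function.iterate_succ_apply']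
    show dif^[n] (fun j : ℕ => c * F (j + t)) (j + 1) - dif^[n] (fun j : ℕ => c * F (j + t)) j =
      c * (((fwdDiff (1 : ℝ))^[n] F) (j + t + 1) - ((fwdDiff (1 : ℝ))^[n] F) (j + t))
    rw [ih, ih]
    push_cast
    rw [show (j : ℝ) + 1 + t = j + t + 1 by ring]
    ring

theorem lin_of_dif {g : ℕ → ℝ} {β : ℝ} (h : ∀ j, dif g j = β) (j : ℕ) : g j = g 0 + j * β := by
  induction j with
  | zero => simp
  | succ j ih =>
    have := h j
    unfold dif at this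
    push_cast
    linarith

theorem rich_pow (e R : ℕ) (hR : 0 < R) (θ δ : ℝ) (hδ : 0 < δ) (r : ℕ) (hr1 : 1 ≤ r)
    (hr2 : r ≤ e + 1) (a s : ℕ) (h : δ ≤ nn (θ * (s : ℝ) ^ r)) :
    Rich (fun j : ℕ => θ / ((R ^ (2 ^ e)).factorial * r.factorial) * ((a + j * s : ℕ) : ℝ) ^ r) R
      (R ^ (2 ^ e) + e) (6 / ((48 * 4 ^ e * (R ^ (2 ^ e + 2)) ^ (2 ^ e) : ℕ) : ℝ)) ∨
    Rich (fun j : ℕ => θ / ((R ^ (2 ^ e)).factorial * r.factorial) * ((a + j * s : ℕ) : ℝ) ^ r)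
      (R ^ (2 ^ e + 2))
      (R ^ (2 ^ e) * (⌈((R ^ (2 ^ e)).factorial : ℝ) / δ⌉₊ + 1) + e)
      (6 / ((48 * 4 ^ e * (R ^ (2 ^ e + 2)) ^ (2 ^ e) : ℕ) : ℝ)) := by
  set m := R ^ (2 ^ e) with hm
  set K1 := R ^ (2 ^ e + 2) with hK1
  have hK1pos : 0 < K1 := Nat.pow_pos hR
  have hmpos : 0 < m := Nat.pow_pos hR
  set K := K1 ^ (2 ^ e) with hK
  have hKpos : 0 < K := Nat.pow_pos hK1pos
  have hKr : (0 : ℝ) < K := Nat.cast_pos.2 hKpos
  obtain ⟨d, rfl⟩ : ∃ d, r = d + 1 := ⟨r - 1, by omega⟩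
  have hde : d ≤ e := by omega
  have hs : s ≠ 0 := by
    rintro rfl
    have h0 : nn (θ * ((0 : ℕ) : ℝ) ^ (d + 1)) = 0 := by
      rw [Nat.cast_zero, zero_pow (by omega), mul_zero]
      unfold nn; simp
    rw [h0] at h
    linarith
  have hs' : (s : ℝ) ≠ 0 := Nat.cast_ne_zero.2 hs
  have hmf : ((m.factorial : ℕ) : ℝ) ≠ 0 := Nat.cast_ne_zero.2 (Nat.factorial_ne_zero _)
  have hrf : (((d + 1).factorial : ℕ) : ℝ) ≠ 0 := Nat.cast_ne_zero.2 (Nat.factorial_ne_zero _)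
  set y : ℕ → ℝ := fun j : ℕ => θ / (m.factorial * (d + 1).factorial) *
    ((a + j * s : ℕ) : ℝ) ^ (d + 1) with hy
  set β : ℝ := θ * (s : ℝ) ^ (d + 1) / m.factorial with hβ
  have hy2 : y = fun j : ℕ => (θ * (s : ℝ) ^ (d + 1) / (m.factorial * (d + 1).factorial)) *
      (fun x : ℝ => x ^ (d + 1)) (j + a / s) := by
    funext j
    simp only [hy]
    push_cast
    have e1 : (a : ℝ) + j * s = s * (j + a / s) := by field_simp; ring
    rw [e1, mul_pow]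
    ring
  have hdif : ∀ j, dif (dif^[d] y) j = β := by
    intro j
    rw [← Function.iterate_succ_apply' dif d y, hy2]
    have e1 := dif_iter (fun x : ℝ => x ^ (d + 1))
      (θ * (s : ℝ) ^ (d + 1) / (m.factorial * (d + 1).factorial)) (a / s) (d + 1) j
    rw [fwdDiff_iter_eq_factorial] at e1
    refine e1.trans ?_
    simp only [Pi.natCast_apply, hβ]
    field_simp
  have hlin : dif^[d] y = fun j : ℕ => (dif^[d] y 0) + j * β := by
    funext j
    exact lin_of_dif hdif j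
  have hmβ : δ ≤ nn ((m.factorial : ℝ) * β) := by
    have e1 : (m.factorial : ℝ) * β = θ * (s : ℝ) ^ (d + 1) := by
      rw [hβ]; field_simp
    rw [e1]
    exact h
  have h4 : (4 : ℝ) ^ d ≤ 4 ^ e := pow_le_pow_right₀ (by norm_num) hde
  have h2 : 2 ^ d ≤ 2 ^ e := Nat.pow_le_pow_right (by norm_num) hde
  have hρ0 : (0 : ℝ) < 6 / ((48 * 4 ^ e * K : ℕ) : ℝ) := by
    have : (0 : ℝ) < ((48 * 4 ^ e * K : ℕ) : ℝ) := by
      rw [Nat.cast_pos]; positivity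
    positivity
  have hρ : (4 : ℝ) ^ d * (6 / ((48 * 4 ^ e * K : ℕ) : ℝ)) ≤ 1 / (8 * K) := by
    calc (4 : ℝ) ^ d * (6 / ((48 * 4 ^ e * K : ℕ) : ℝ)) ≤
        4 ^ e * (6 / ((48 * 4 ^ e * K : ℕ) : ℝ)) := mul_le_mul_of_nonneg_right h4 hρ0.le
      _ = 1 / (8 * K) := by
        push_cast
        have : (4 : ℝ) ^ e ≠ 0 := by positivity
        field_simp
        norm_num
  rcases rich_linear m K (dif^[d] y 0) β δ hδ hmβ hKpos with h5 | h5
  · left
    rw [← hlin] at h5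
    have h6 : Rich (dif^[d] y) (R ^ (2 ^ d)) m (4 ^ d * (6 / ((48 * 4 ^ e * K : ℕ) : ℝ))) := by
      apply h5.mono _ le_rfl hρ
      calc R ^ (2 ^ d) ≤ R ^ (2 ^ e) := Nat.pow_le_pow_right hR h2
        _ ≤ m + 1 := by rw [hm]; omega
    exact (rich_of_dif_iter d hρ0 h6).mono le_rfl (by omega) le_rfl
  · right
    rw [← hlin] at h5
    have h6 : Rich (dif^[d] y) (K1 ^ (2 ^ d)) (m * (⌈(m.factorial : ℝ) / δ⌉₊ + 1))
        (4 ^ d * (6 / ((48 * 4 ^ e * K : ℕ) : ℝ))) := by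
      apply h5.mono _ le_rfl hρ
      exact Nat.pow_le_pow_right hK1pos h2
    exact (rich_of_dif_iter d hρ0 h6).mono le_rfl (by omega) le_rfl

end Pool.Agent.W97.TL
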