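import Pool.Agent.W97.TL.Hit
import Pool.Agent.W97.TL.Pow
import Pool.Agent.W97.TL.Block2

/-!
Assembly, rich sequences and windows without carries.
-/

set_option autoImplicit false

namespace Pool.Agent.W97.TL

theorem assemble {ι : Type} [Fintype ι] [DecidableEq ι] (e R : ℕ) (he : 1 ≤ e) (hR : 0 < R)
    (nq Jq : Fin 3 → ℕ)
    (hsmall : ∀ q, (fine2 e (GG e R) (Jq q) : ℝ) ^ (Fintype.card ι * (e + 6)) *
      (2 * (1 - 1 / 2 ^ (2 ^ Fintype.card ι)) ^ (nq q)) < 1 / 3)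
    (y : ι → ℕ → ℝ) (S : Set ℕ) (N0 : ℕ)
    (H : ∀ a : ℕ, ∀ s ∈ S, ∃ j0 ≤ N0, ∃ q : Fin 3, ∃ (p : ι → Code (Jq q)) (b : ι → TT e → ℝ)
      (i0 : ι), (∀ i, ∀ j ≤ Jq q, y i (a + (j0 + j) * s) =
        ∑ t, b i t * (phi e (Jq q) (p i) t j : ℝ)) ∧
      Rich (fun j => y i0 (a + (j0 + j) * s)) (nq q) (Jq q) ((6 : ℝ) / (GG e R : ℕ))) :
    ∃ (c : ℕ → Bool) (k : ℕ), ∀ a : ℕ, ∀ s ∈ S, ∃ j < k, c (a + j * s) ≠ c a := by
  classical
  set G := GG e R with hG
  have hGpos : 0 < G := by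
    have : 0 < R ^ (2 ^ e + 2) := Nat.pow_pos hR
    rw [hG]; unfold GG; positivity
  have : NeZero G := ⟨hGpos.ne'⟩
  let E := Σ q : Fin 3, {pb : Net ι e G (Jq q) //
    ∃ i, Rich (nf pb i) (nq q) (Jq q) ((4 : ℝ) / G)}
  choose t ht hd using fun x : E => times2 G (nq x.1) (Jq x.1) (nf x.2.1) x.2.2
  have hfin : ∀ q, Fintype {pb : Net ι e G (Jq q) //
    ∃ i, Rich (nf pb i) (nq q) (Jq q) ((4 : ℝ) / G)} := fun q => Fintype.ofFinite _
  have hc : ∀ q, (Fintype.card {pb : Net ι e G (Jq q) //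
      ∃ i, Rich (nf pb i) (nq q) (Jq q) ((4 : ℝ) / G)} : ℝ) ≤
      (fine2 e G (Jq q) : ℝ) ^ (Fintype.card ι * (e + 6)) := by
    intro q
    have h1 := (Fintype.card_subtype_le (fun pb : Net ι e G (Jq q) =>
      ∃ i, Rich (nf pb i) (nq q) (Jq q) ((4 : ℝ) / G))).trans (card_net e G (Jq q) he hGpos)
    exact_mod_cast h1
  set lam : ℝ := 1 - 1 / 2 ^ (2 ^ Fintype.card ι) with hlam
  have hlam0 : 0 ≤ lam := by
    rw [hlam, sub_nonneg, div_le_one (by positivity)]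
    exact one_le_pow₀ (by norm_num)
  obtain ⟨F, hF⟩ := exists_colouring (Ω := ι → ZMod G) (E := E) (2 ^ Fintype.card ι)
    (fun x => nq x.1) (fun x i => blk2 G (nf x.2.1) (t x i))
    (fun x i _ => card_blk2 _ _ _)
    (fun x => hd x)
    (by
      rw [Fintype.sum_sigma, Fin.sum_univ_three]
      simp only [Finset.sum_const, Finset.card_univ, nsmul_eq_mul]
      have h0 := mul_le_mul_of_nonneg_right (hc 0) (show 0 ≤ 2 * lam ^ (nq 0) by positivity)
      have h1 := mul_le_mul_of_nonneg_right (hc 1) (show 0 ≤ 2 * lam ^ (nq 1) by positivity)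
      have h2 := mul_le_mul_of_nonneg_right (hc 2) (show 0 ≤ 2 * lam ^ (nq 2) by positivity)
      have g0 := hsmall 0
      have g1 := hsmall 1
      have g2 := hsmall 2
      linarith)
  refine ⟨fun n => F (fun i => ((⌊(G : ℝ) * y i n⌋ : ℤ) : ZMod G)),
    N0 + (Jq 0 + Jq 1 + Jq 2) + 1, fun a s hs => ?_⟩
  obtain ⟨j0, hj0, q, p, b, i0, hy, hrich⟩ := H a s hs
  by_contra hcon
  push Not at hcon
  obtain ⟨pb, hpb, hcell⟩ := key2 e G (Jq q) (nq q) he
    (fun i j => y i (a + (j0 + j) * s)) p b hy i0 hrich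
  obtain ⟨x, hx, hz⟩ := hF ⟨q, pb, hpb⟩
    (!(F (fun i => ((⌊(G : ℝ) * y i a⌋ : ℤ) : ZMod G))))
  have hJ : Jq q ≤ Jq 0 + Jq 1 + Jq 2 := by
    fin_cases q
    · show Jq 0 ≤ _; omega
    · show Jq 1 ≤ _; omega
    · show Jq 2 ≤ _; omega
  have h0 := ht ⟨q, pb, hpb⟩ x hx
  have h1 := hcell (t ⟨q, pb, hpb⟩ x) h0
  have h2 := hz _ h1
  have h3 := hcon (j0 + t ⟨q, pb, hpb⟩ x) (by
    have h0' : t ⟨q, pb, hpb⟩ x ≤ Jq q := h0
    omega)
  rw [h2] at h3
  simp at h3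

theorem rich_gen (e d R : ℕ) (hde : d ≤ e) (hR : 0 < R) (δ : ℝ) (hδ : 0 < δ) (y : ℕ → ℝ) (β : ℝ)
    (hdif : ∀ j, dif (dif^[d] y) j = β) (hmβ : δ ≤ nn (((R ^ (2 ^ e)).factorial : ℝ) * β)) :
    Rich y R (JA e R) ((6 : ℝ) / (GG e R : ℕ)) ∨
      Rich y (R ^ (2 ^ e + 2)) (JB e R δ) ((6 : ℝ) / (GG e R : ℕ)) := by
  unfold JA JB GG
  set m := R ^ (2 ^ e) with hm
  set K1 := R ^ (2 ^ e + 2) with hK1
  have hK1pos : 0 < K1 := Nat.pow_pos hR
  set K := K1 ^ (2 ^ e) with hK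
  have hKpos : 0 < K := Nat.pow_pos hK1pos
  have hKr : (0 : ℝ) < K := Nat.cast_pos.2 hKpos
  have hlin : dif^[d] y = fun j : ℕ => (dif^[d] y 0) + j * β := by
    funext j
    exact lin_of_dif hdif j
  have h4 : (4 : ℝ) ^ d ≤ 4 ^ e := pow_le_pow_right₀ (by norm_num) hde
  have h2 : 2 ^ d ≤ 2 ^ e := Nat.pow_le_pow_right (by norm_num) hde
  have hρ0 : (0 : ℝ) < 6 / ((48 * 4 ^ e * K : ℕ) : ℝ) := by
    have : (0 : ℝ) < ((48 * 4 ^ e * K : ℕ) : ℝ) := by
      rw [Nat.cast_pos]; positivity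
    positivity
  have hρ : (4 : ℝ) ^ d * (6 / ((48 * 4 ^ e * K : ℕ) : ℝ)) ≤ 1 / (8 * K) := by
    calc (4 : ℝ) ^ d * (6 / ((48 * 4 ^ e * K : ℕ) : ℝ)) ≤
        4 ^ e * (6 / ((48 * 4 ^ e * K : ℕ) : ℝ)) := mul_le_mul_of_nonneg_right h4 hρ0.le
      _ = 1 / (8 * K) := by
        push_cast
        have : (4 : ℝ) ^ e ≠ 0 := by positivity
        field_simp
        norm_num
  rcases rich_linear m K (dif^[d] y 0) β δ hδ hmβ hKpos with h5 | h5
  · left
    rw [← hlin] at h5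
    have h6 : Rich (dif^[d] y) (R ^ (2 ^ d)) m (4 ^ d * (6 / ((48 * 4 ^ e * K : ℕ) : ℝ))) := by
      apply h5.mono _ le_rfl hρ
      calc R ^ (2 ^ d) ≤ R ^ (2 ^ e) := Nat.pow_le_pow_right hR h2
        _ ≤ m + 1 := by rw [hm]; exact Nat.le_succ _
    exact (rich_of_dif_iter d hρ0 h6).mono le_rfl (by omega) le_rfl
  · right
    rw [← hlin] at h5
    have h6 : Rich (dif^[d] y) (K1 ^ (2 ^ d)) (m * (⌈(m.factorial : ℝ) / δ⌉₊ + 1))
        (4 ^ d * (6 / ((48 * 4 ^ e * K : ℕ) : ℝ))) := by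
      apply h5.mono _ le_rfl hρ
      exact Nat.pow_le_pow_right hK1pos h2
    exact (rich_of_dif_iter d hρ0 h6).mono le_rfl (by omega) le_rfl

open Polynomial in
/-- the coefficients of a power along a progression -/
theorem coeffsP (e r : ℕ) (hr : r ≤ e + 1) (c : ℝ) (a s : ℕ) :
    ∃ b : Fin (e + 2) → ℝ, ∀ j : ℕ,
      c * ((a + j * s : ℕ) : ℝ) ^ r = ∑ l, b l * (j : ℝ) ^ (l : ℕ) := by
  set P : ℝ[X] := C c * (C (a : ℝ) + X * C (s : ℝ)) ^ r with hP
  have hdeg : P.natDegree < e + 2 := by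
    have h1 : (C (a : ℝ) + X * C (s : ℝ)).natDegree ≤ 1 := by
      compute_degree
    have h2 : P.natDegree ≤ r * 1 := by
      rw [hP]
      refine (natDegree_C_mul_le _ _).trans ?_
      exact (natDegree_pow_le).trans (Nat.mul_le_mul_left _ h1)
    omega
  refine ⟨fun l => P.coeff l, fun j => ?_⟩
  have h3 := eval_eq_sum_range' hdeg (j : ℝ)
  rw [Finset.sum_range] at h3
  rw [← h3, hP]
  simp

open Polynomial in
theorem coeffsQ (e : ℕ) (he : 1 ≤ e) (c a s A B : ℝ) :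
    ∃ b : Fin (e + 2) → ℝ, ∀ j : ℕ,
      c * ((a + j * s) * (A + j * B)) = ∑ l, b l * (j : ℝ) ^ (l : ℕ) := by
  set P : ℝ[X] := C c * ((C a + X * C s) * (C A + X * C B)) with hP
  have hdeg : P.natDegree < e + 2 := by
    have h2 : P.natDegree ≤ 2 := by
      rw [hP]
      compute_degree
    omega
  refine ⟨fun l => P.coeff l, fun j => ?_⟩
  have h3 := eval_eq_sum_range' hdeg (j : ℝ)
  rw [Finset.sum_range] at h3
  rw [← h3, hP]
  simp only [eval_mul, eval_add, eval_C, eval_X]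

/-- a window without carries -/
theorem window {κ : Type} [Fintype κ] (α : κ → ℝ) (N : κ → ℤ) (a s J : ℕ)
    (h : ∀ i, |α i * s - N i| * (((Fintype.card κ + 1) * (J + 1) : ℕ) : ℝ) < 1) :
    ∃ j0 ≤ (Fintype.card κ) * (J + 1), ∀ i, ∀ j ≤ J,
      ⌊α i * ((a + (j0 + j) * s : ℕ) : ℝ)⌋ = ⌊α i * ((a + j0 * s : ℕ) : ℝ)⌋ + j * N i := by
  classical
  set w : κ → ℝ := fun i => α i * s - N i with hw
  set f : κ → ℕ → ℤ := fun i j => ⌊α i * a + j * w i⌋ with hf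
  have hfl : ∀ i (j : ℕ), ⌊α i * ((a + j * s : ℕ) : ℝ)⌋ = f i j + j * N i := by
    intro i j
    have e1 : α i * ((a + j * s : ℕ) : ℝ) = (α i * a + j * w i) + ((j * N i : ℤ) : ℝ) := by
      simp only [hw]
      push_cast
      ring
    rw [e1, Int.floor_add_intCast]
  set M := J + 1 with hM
  have hex : ∃ q : Fin (Fintype.card κ + 1), ∀ i, f i (q * M) = f i (q * M + J) := by
    by_contra hcon
    push Not at hcon
    choose g hg using hcon
    obtain ⟨q, q', hne, hq⟩ := Fintype.exists_ne_map_eq_of_card_lt g (by simp)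
    wlog hlt : q < q' generalizing q q' with Hw
    · exact Hw q' q hne.symm hq.symm (lt_of_le_of_ne (not_lt.1 hlt) hne.symm)
    have h1 := hg q
    have h2 := hg q'
    rw [← hq] at h2
    set i := g q with hi
    have hlt' : (q : ℕ) < q' := hlt
    have hle : (q : ℕ) * M + J ≤ q' * M := by
      have : ((q : ℕ) + 1) * M ≤ q' * M := Nat.mul_le_mul_right _ hlt'
      rw [hM] at this ⊢
      nlinarith
    have hub : (q' : ℕ) * M + J ≤ (Fintype.card κ + 1) * M := by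
      have h3 : (q' : ℕ) ≤ Fintype.card κ := Nat.lt_succ_iff.1 q'.2
      have : (q' : ℕ) * M ≤ Fintype.card κ * M := Nat.mul_le_mul_right _ h3
      rw [hM] at this ⊢
      nlinarith
    have hsm := h i
    have hx : (((q' : ℕ) * M + J : ℕ) : ℝ) - ((q : ℕ) * M : ℕ) ≤
        (((Fintype.card κ + 1) * M : ℕ) : ℝ) := by
      have h4 : (((q' : ℕ) * M + J : ℕ) : ℝ) ≤ (((Fintype.card κ + 1) * M : ℕ) : ℝ) := by
        exact_mod_cast hub
      have h5 : (0 : ℝ) ≤ (((q : ℕ) * M : ℕ) : ℝ) := Nat.cast_nonneg _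
      linarith
    have hx0 : 0 ≤ (((q' : ℕ) * M + J : ℕ) : ℝ) - ((q : ℕ) * M : ℕ) := by
      have : (q : ℕ) * M ≤ (q' : ℕ) * M + J := by omega
      have h4 : ((((q : ℕ) * M : ℕ)) : ℝ) ≤ (((q' : ℕ) * M + J : ℕ) : ℝ) := by
        exact_mod_cast this
      linarith
    have htot : |((((q' : ℕ) * M + J : ℕ) : ℝ) - ((q : ℕ) * M : ℕ)) * w i| < 1 := by
      rw [abs_mul, abs_of_nonneg hx0]
      refine lt_of_le_of_lt (mul_le_mul_of_nonneg_right hx (abs_nonneg _)) ?_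
      rw [mul_comm]
      exact hsm
    rw [abs_lt] at htot
    rcases le_total 0 (w i) with hwi | hwi
    · have mono : ∀ x y : ℕ, x ≤ y → f i x ≤ f i y := by
        intro x y hxy
        apply Int.floor_mono
        have : (x : ℝ) ≤ y := by exact_mod_cast hxy
        nlinarith
      have m1 := mono _ _ (Nat.le_add_right ((q : ℕ) * M) J)
      have m2 := mono _ _ hle
      have m3 := mono _ _ (Nat.le_add_right ((q' : ℕ) * M) J)
      have m4 : f i ((q : ℕ) * M) + 2 ≤ f i ((q' : ℕ) * M + J) := by omega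
      have a1 : (f i ((q' : ℕ) * M + J) : ℝ) ≤ α i * a + (((q' : ℕ) * M + J : ℕ) : ℝ) * w i :=
        Int.floor_le _
      have a2 : α i * a + (((q : ℕ) * M : ℕ) : ℝ) * w i < (f i ((q : ℕ) * M) : ℝ) + 1 :=
        Int.lt_floor_add_one _
      have a3 : ((f i ((q : ℕ) * M) : ℤ) : ℝ) + 2 ≤ (f i ((q' : ℕ) * M + J) : ℝ) := by
        exact_mod_cast m4
      nlinarith [htot.2]
    · have mono : ∀ x y : ℕ, x ≤ y → f i y ≤ f i x := by
        intro x y hxy
        apply Int.floor_mono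
        have : (x : ℝ) ≤ y := by exact_mod_cast hxy
        nlinarith
      have m1 := mono _ _ (Nat.le_add_right ((q : ℕ) * M) J)
      have m2 := mono _ _ hle
      have m3 := mono _ _ (Nat.le_add_right ((q' : ℕ) * M) J)
      have m4 : f i ((q' : ℕ) * M + J) + 2 ≤ f i ((q : ℕ) * M) := by omega
      have a1 : (f i ((q : ℕ) * M) : ℝ) ≤ α i * a + (((q : ℕ) * M : ℕ) : ℝ) * w i :=
        Int.floor_le _
      have a2 : α i * a + (((q' : ℕ) * M + J : ℕ) : ℝ) * w i <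
          (f i ((q' : ℕ) * M + J) : ℝ) + 1 := Int.lt_floor_add_one _
      have a3 : ((f i ((q' : ℕ) * M + J) : ℤ) : ℝ) + 2 ≤ (f i ((q : ℕ) * M) : ℝ) := by
        exact_mod_cast m4
      nlinarith [htot.1]
  obtain ⟨q, hq⟩ := hex
  refine ⟨q * M, Nat.mul_le_mul_right _ (Nat.lt_succ_iff.1 q.2), fun i j hj => ?_⟩
  have hconst : f i (q * M + j) = f i (q * M) := by
    have h1 := hq i
    rcases le_total 0 (w i) with hwi | hwi
    · have mono : ∀ x y : ℕ, x ≤ y → f i x ≤ f i y := by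
        intro x y hxy
        apply Int.floor_mono
        have : (x : ℝ) ≤ y := by exact_mod_cast hxy
        nlinarith
      have m1 := mono _ _ (Nat.le_add_right ((q : ℕ) * M) j)
      have m2 := mono ((q : ℕ) * M + j) ((q : ℕ) * M + J) (by omega)
      omega
    · have mono : ∀ x y : ℕ, x ≤ y → f i y ≤ f i x := by
        intro x y hxy
        apply Int.floor_mono
        have : (x : ℝ) ≤ y := by exact_mod_cast hxy
        nlinarith
      have m1 := mono _ _ (Nat.le_add_right ((q : ℕ) * M) j)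
      have m2 := mono ((q : ℕ) * M + j) ((q : ℕ) * M + J) (by omega)
      omega
  rw [hfl, hfl, hconst]
  push_cast
  ring

end Pool.Agent.W97.TL
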