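import Mathlib

/-!
Choice of the parameters.
-/

set_option autoImplicit false

open Filter Topology

namespace Pool.Agent.W97.TL

/-- the fineness of the approximation of the coefficients -/
def fine (e G J : ℕ) : ℕ := (e + 2) * (J + 1) ^ (e + 1) * G + 1

theorem params (e b k : ℕ) (δ : ℝ) (hδ : 0 < δ) :
    ∃ R : ℕ, 0 < R ∧
      ((fine e (48 * 4 ^ e * (R ^ (2 ^ e + 2)) ^ (2 ^ e)) (R ^ (2 ^ e) + e) : ℕ) : ℝ) ^ k *
        (2 * (1 - 1 / 2 ^ b) ^ R) < 1 / 2 ∧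
      ((fine e (48 * 4 ^ e * (R ^ (2 ^ e + 2)) ^ (2 ^ e))
        (R ^ (2 ^ e) * (⌈((R ^ (2 ^ e)).factorial : ℝ) / δ⌉₊ + 1) + e) : ℕ) : ℝ) ^ k *
        (2 * (1 - 1 / 2 ^ b) ^ (R ^ (2 ^ e + 2))) < 1 / 2 := by
  set E := 2 ^ e with hE
  have hE1 : 1 ≤ E := Nat.one_le_two_pow
  set lam : ℝ := 1 - 1 / 2 ^ b with hlam
  have hl0 : 0 ≤ lam := by
    rw [hlam, sub_nonneg, div_le_one (by positivity)]
    exact one_le_pow₀ (by norm_num)
  have hl1 : lam < 1 := by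
    rw [hlam]
    have : (0 : ℝ) < 1 / 2 ^ b := by positivity
    linarith
  -- constants
  set C1 : ℝ := ((e + 2 : ℕ) : ℝ) ^ (e + 2) * (48 * 4 ^ e) + 1 with hC1
  set D1 : ℕ := E * (e + 1) + (E + 2) * E with hD1
  set c : ℝ := 1 / δ + 2 + (e + 1) with hc
  set C2 : ℝ := ((e + 2 : ℕ) : ℝ) * c ^ (e + 1) * (48 * 4 ^ e) + 1 with hC2
  set D2 : ℕ := 2 * E * (e + 1) + (E + 2) * E with hD2
  have hc0 : 0 < c := by rw [hc]; positivity
  -- eventually
  have ev1 : ∀ᶠ R : ℕ in atTop, 2 * C1 ^ k * ((R : ℝ) ^ (D1 * k) * lam ^ R) < 1 / 2 := by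
    have h1 := (tendsto_pow_const_mul_const_pow_of_lt_one (D1 * k) hl0 hl1).const_mul (2 * C1 ^ k)
    rw [mul_zero] at h1
    exact h1.eventually (gt_mem_nhds (by norm_num))
  have ev2 : ∀ᶠ R : ℕ in atTop, (2 : ℝ) ^ (D2 * k) * lam ^ R ≤ 1 / 2 := by
    have h1 := (tendsto_pow_atTop_nhds_zero_of_lt_one hl0 hl1).const_mul ((2 : ℝ) ^ (D2 * k))
    rw [mul_zero] at h1
    exact (h1.eventually (gt_mem_nhds (show (0 : ℝ) < 1 / 2 by norm_num))).mono (fun _ h => h.le)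
  have ev3 : ∀ᶠ R : ℕ in atTop, 2 * C2 ^ k * (1 / 2 : ℝ) ^ R < 1 / 2 := by
    have h1 := (tendsto_pow_atTop_nhds_zero_of_lt_one (r := (1 / 2 : ℝ)) (by norm_num)
      (by norm_num)).const_mul (2 * C2 ^ k)
    rw [mul_zero] at h1
    exact h1.eventually (gt_mem_nhds (by norm_num))
  obtain ⟨R, ⟨⟨h1, h2⟩, h3⟩, hR⟩ := (((ev1.and ev2).and ev3).and (eventually_ge_atTop 1)).exists
  have hR1 : (1 : ℝ) ≤ R := by exact_mod_cast hR
  have hRE : (1 : ℝ) ≤ (R : ℝ) ^ E := one_le_pow₀ hR1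
  refine ⟨R, hR, ?_, ?_⟩
  · -- first inequality
    have hQ : ((fine e (48 * 4 ^ e * (R ^ (E + 2)) ^ E) (R ^ E + e) : ℕ) : ℝ) ≤ C1 * (R : ℝ) ^ D1 := by
      unfold fine
      push_cast
      have a1 : (R : ℝ) ^ E + e + 1 ≤ ((e + 2 : ℕ) : ℝ) * (R : ℝ) ^ E := by
        push_cast
        have : (0 : ℝ) ≤ (e : ℝ) := Nat.cast_nonneg _
        nlinarith
      have a2 : ((R : ℝ) ^ E + e + 1) ^ (e + 1) ≤ (((e + 2 : ℕ) : ℝ) * (R : ℝ) ^ E) ^ (e + 1) :=
        pow_le_pow_left₀ (by positivity) a1 _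
      have a3 : (1 : ℝ) ≤ (R : ℝ) ^ D1 := one_le_pow₀ hR1
      have a4 : ((e : ℝ) + 2) * (((e + 2 : ℕ) : ℝ) * (R : ℝ) ^ E) ^ (e + 1) *
          (48 * 4 ^ e * ((R : ℝ) ^ (E + 2)) ^ E) =
          (((e + 2 : ℕ) : ℝ) ^ (e + 2) * (48 * 4 ^ e)) * (R : ℝ) ^ D1 := by
        rw [hD1, mul_pow, ← pow_mul, ← pow_mul, pow_add (R : ℝ) (E * (e + 1))]
        push_cast
        ring
      calc ((e : ℝ) + 2) * ((R : ℝ) ^ E + e + 1) ^ (e + 1) * (48 * 4 ^ e * ((R : ℝ) ^ (E + 2)) ^ E) + 1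
          ≤ ((e : ℝ) + 2) * (((e + 2 : ℕ) : ℝ) * (R : ℝ) ^ E) ^ (e + 1) *
            (48 * 4 ^ e * ((R : ℝ) ^ (E + 2)) ^ E) + (R : ℝ) ^ D1 := by
            apply add_le_add _ a3
            apply mul_le_mul_of_nonneg_right _ (by positivity)
            apply mul_le_mul_of_nonneg_left a2 (by positivity)
        _ = C1 * (R : ℝ) ^ D1 := by rw [a4, hC1]; ring
    have hQk := pow_le_pow_left₀ (Nat.cast_nonneg _) hQ k
    calc _ ≤ (C1 * (R : ℝ) ^ D1) ^ k * (2 * lam ^ R) :=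
          mul_le_mul_of_nonneg_right hQk (by positivity)
      _ = 2 * C1 ^ k * ((R : ℝ) ^ (D1 * k) * lam ^ R) := by rw [mul_pow, ← pow_mul]; ring
      _ < 1 / 2 := h1
  · -- second inequality
    set X := R ^ (E + 1) with hX
    have hRX : R ≤ X := by
      rw [hX]
      calc R = R ^ 1 := (pow_one R).symm
        _ ≤ R ^ (E + 1) := Nat.pow_le_pow_right hR (by omega)
    have hR2 : (R : ℝ) ≤ 2 ^ R := by exact_mod_cast Nat.lt_two_pow_self.le
    set m := R ^ E with hm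
    have hm1 : 1 ≤ m := Nat.one_le_pow _ _ hR
    have hmm : (m : ℝ) * (m.factorial : ℝ) ≤ 2 ^ (2 * E * X) := by
      have b1 : m * m.factorial ≤ m ^ (m + 1) := by
        rw [pow_succ, mul_comm]
        exact Nat.mul_le_mul_right _ (Nat.factorial_le_pow m)
      have b2 : m ^ (m + 1) ≤ 2 ^ (2 * E * X) := by
        rw [hm, ← pow_mul]
        calc R ^ (E * (R ^ E + 1)) ≤ (2 ^ R) ^ (E * (R ^ E + 1)) :=
              Nat.pow_le_pow_left Nat.lt_two_pow_self.le _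
          _ = 2 ^ (R * (E * (R ^ E + 1))) := by rw [← pow_mul]
          _ ≤ 2 ^ (2 * E * X) := by
            apply Nat.pow_le_pow_right (by norm_num)
            rw [hX, pow_succ]
            have : 1 ≤ R ^ E := hm1
            nlinarith [Nat.zero_le (R * E)]
      exact_mod_cast b1.trans b2
    have hmf : (1 : ℝ) ≤ (m : ℝ) * (m.factorial : ℝ) := by
      have : 1 ≤ m * m.factorial := Nat.mul_pos hm1 (Nat.factorial_pos _)
      exact_mod_cast this
    have hJ : ((m * (⌈(m.factorial : ℝ) / δ⌉₊ + 1) + e : ℕ) : ℝ) + 1 ≤ c * 2 ^ (2 * E * X) := by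
      push_cast
      have b1 : (⌈(m.factorial : ℝ) / δ⌉₊ : ℝ) < m.factorial / δ + 1 :=
        Nat.ceil_lt_add_one (by positivity)
      have b2 : (1 : ℝ) ≤ m.factorial := by exact_mod_cast Nat.factorial_pos m
      have b3 : (m : ℝ) * (⌈(m.factorial : ℝ) / δ⌉₊ + 1) ≤
          (1 / δ + 2) * ((m : ℝ) * (m.factorial : ℝ)) := by
        have b4 : (⌈(m.factorial : ℝ) / δ⌉₊ : ℝ) + 1 ≤ (1 / δ + 2) * m.factorial := by
          have e' : (m.factorial : ℝ) / δ = 1 / δ * m.factorial := by ring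
          have e'' : (1 / δ + 2) * (m.factorial : ℝ) = m.factorial / δ + 2 * m.factorial := by
            rw [e']; ring
          rw [e'']
          linarith
        calc (m : ℝ) * (⌈(m.factorial : ℝ) / δ⌉₊ + 1) ≤ (m : ℝ) * ((1 / δ + 2) * m.factorial) :=
              mul_le_mul_of_nonneg_left b4 (Nat.cast_nonneg _)
          _ = _ := by ring
      have b5 : ((e : ℝ) + 1) ≤ (e + 1) * ((m : ℝ) * (m.factorial : ℝ)) :=
        le_mul_of_one_le_right (by positivity) hmf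
      calc (m : ℝ) * (⌈(m.factorial : ℝ) / δ⌉₊ + 1) + e + 1
          ≤ (1 / δ + 2) * ((m : ℝ) * (m.factorial : ℝ)) +
            (e + 1) * ((m : ℝ) * (m.factorial : ℝ)) := by linarith
        _ = c * ((m : ℝ) * (m.factorial : ℝ)) := by rw [hc]; ring
        _ ≤ c * 2 ^ (2 * E * X) := mul_le_mul_of_nonneg_left hmm hc0.le
    have hG : (48 * 4 ^ e * ((R : ℝ) ^ (E + 2)) ^ E) ≤ 48 * 4 ^ e * 2 ^ ((E + 2) * E * X) := by
      apply mul_le_mul_of_nonneg_left _ (by positivity)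
      rw [← pow_mul]
      calc (R : ℝ) ^ ((E + 2) * E) ≤ (2 ^ R) ^ ((E + 2) * E) := pow_le_pow_left₀ (by positivity) hR2 _
        _ = 2 ^ (R * ((E + 2) * E)) := by rw [← pow_mul]
        _ ≤ 2 ^ ((E + 2) * E * X) := by
          apply pow_le_pow_right₀ (by norm_num)
          rw [mul_comm]
          exact Nat.mul_le_mul_left _ hRX
    have hQ : ((fine e (48 * 4 ^ e * (R ^ (E + 2)) ^ E)
        (m * (⌈(m.factorial : ℝ) / δ⌉₊ + 1) + e) : ℕ) : ℝ) ≤ C2 * 2 ^ (D2 * X) := by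
      unfold fine
      have a2 := pow_le_pow_left₀ (by positivity) hJ (e + 1)
      have a3 : (1 : ℝ) ≤ (2 : ℝ) ^ (D2 * X) := one_le_pow₀ (by norm_num)
      have a4 : ((e : ℝ) + 2) * (c * 2 ^ (2 * E * X)) ^ (e + 1) *
          (48 * 4 ^ e * 2 ^ ((E + 2) * E * X)) =
          (((e + 2 : ℕ) : ℝ) * c ^ (e + 1) * (48 * 4 ^ e)) * 2 ^ (D2 * X) := by
        have : D2 * X = 2 * E * X * (e + 1) + (E + 2) * E * X := by rw [hD2]; ring
        rw [this, mul_pow, ← pow_mul, pow_add]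
        push_cast
        ring
      have a5 : (((e + 2) * (m * (⌈(m.factorial : ℝ) / δ⌉₊ + 1) + e + 1) ^ (e + 1) *
          (48 * 4 ^ e * (R ^ (E + 2)) ^ E) + 1 : ℕ) : ℝ) =
          ((e : ℝ) + 2) * (((m * (⌈(m.factorial : ℝ) / δ⌉₊ + 1) + e : ℕ) : ℝ) + 1) ^ (e + 1) *
            (48 * 4 ^ e * ((R : ℝ) ^ (E + 2)) ^ E) + 1 := by
        push_cast
        ring
      rw [a5]
      calc _ ≤ ((e : ℝ) + 2) * (c * 2 ^ (2 * E * X)) ^ (e + 1) *
            (48 * 4 ^ e * 2 ^ ((E + 2) * E * X)) + 2 ^ (D2 * X) := by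
            apply add_le_add _ a3
            apply mul_le_mul _ hG (by positivity) (by positivity)
            exact mul_le_mul_of_nonneg_left a2 (by positivity)
        _ = C2 * 2 ^ (D2 * X) := by rw [a4, hC2]; ring
    have hQk := pow_le_pow_left₀ (Nat.cast_nonneg _) hQ k
    have hC20 : 0 < C2 := by rw [hC2]; positivity
    have e1 : R ^ (E + 2) = R * X := by rw [hX]; ring
    calc _ ≤ (C2 * 2 ^ (D2 * X)) ^ k * (2 * lam ^ (R ^ (E + 2))) :=
          mul_le_mul_of_nonneg_right hQk (by positivity)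
      _ = 2 * C2 ^ k * ((2 ^ (D2 * k) * lam ^ R) ^ X) := by
        rw [e1, mul_pow, mul_pow, ← pow_mul, ← pow_mul, ← pow_mul]
        have : D2 * X * k = D2 * k * X := by ring
        rw [this]
        ring
      _ ≤ 2 * C2 ^ k * ((1 / 2) ^ X) := by
        apply mul_le_mul_of_nonneg_left _ (by positivity)
        exact pow_le_pow_left₀ (by positivity) h2 _
      _ ≤ 2 * C2 ^ k * ((1 / 2) ^ R) := by
        apply mul_le_mul_of_nonneg_left _ (by positivity)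
        exact pow_le_pow_of_le_one (by norm_num) (by norm_num) hRX
      _ < 1 / 2 := h3

end Pool.Agent.W97.TL
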