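import Pool.Agent.W97.TL.Rich
import Pool.Agent.W97.TL.Params

/-!
Blocks of cells and the approximation of the coefficients.
-/

set_option autoImplicit false

namespace Pool.Agent.W97.TL

variable {ι : Type} [Fintype ι] [DecidableEq ι]

/-- the polynomial with coefficients `b l / Q` -/
noncomputable def ap (e Q : ℕ) (b : Fin (e + 2) → Fin Q) (j : ℕ) : ℝ :=
  ∑ l : Fin (e + 2), ((b l : ℕ) : ℝ) / Q * (j : ℝ) ^ (l : ℕ)

/-- the block of cells at time `j` -/
noncomputable def blk (G e Q : ℕ) (b : ι → Fin (e + 2) → Fin Q) (j : ℕ) :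
    Finset (ι → ZMod G) :=
  Fintype.piFinset (fun i => ({((⌊(G : ℝ) * ap e Q (b i) j⌋ : ℤ) : ZMod G),
    ((⌊(G : ℝ) * ap e Q (b i) j⌋ : ℤ) : ZMod G) + 1} : Finset (ZMod G)))

theorem card_blk (G e Q : ℕ) (b : ι → Fin (e + 2) → Fin Q) (j : ℕ) :
    (blk G e Q b j).card ≤ 2 ^ Fintype.card ι := by
  unfold blk
  rw [Fintype.card_piFinset]
  calc _ ≤ ∏ _i : ι, 2 := Finset.prod_le_prod' (fun i _ => Finset.card_le_two)
    _ = _ := by rw [Finset.prod_const, Finset.card_univ]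

theorem blk_disjoint (G e Q : ℕ) [NeZero G] (b : ι → Fin (e + 2) → Fin Q) (j j' : ℕ) (i : ι)
    (h : (4 : ℝ) / G ≤ nn (ap e Q (b i) j - ap e Q (b i) j')) :
    Disjoint (blk G e Q b j) (blk G e Q b j') := by
  have hG : (0 : ℝ) < G := Nat.cast_pos.2 (Nat.pos_of_ne_zero (NeZero.ne G))
  rw [Finset.disjoint_left]
  intro z hz hz'
  unfold blk at hz hz'
  rw [Fintype.mem_piFinset] at hz hz'
  have h1 := hz i
  have h2 := hz' i
  rw [Finset.mem_insert, Finset.mem_singleton] at h1 h2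
  set x := ap e Q (b i) j with hx
  set x' := ap e Q (b i) j' with hx'
  set u := ⌊(G : ℝ) * x⌋ with hu
  set u' := ⌊(G : ℝ) * x'⌋ with hu'
  have key : ∃ ε : ℤ, -1 ≤ ε ∧ ε ≤ 1 ∧ (((u - u' - ε : ℤ)) : ZMod G) = 0 := by
    rcases h1 with h1 | h1 <;> rcases h2 with h2 | h2
    · refine ⟨0, by norm_num, by norm_num, ?_⟩
      push_cast
      rw [← h1, ← h2]; ring
    · refine ⟨1, by norm_num, by norm_num, ?_⟩
      push_cast
      rw [← h1, h2]; ring
    · refine ⟨-1, by norm_num, by norm_num, ?_⟩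
      have : (u : ZMod G) = z i - 1 := by rw [h1]; ring
      push_cast
      rw [this, ← h2]; ring
    · refine ⟨0, by norm_num, by norm_num, ?_⟩
      have e1 : (u : ZMod G) = z i - 1 := by rw [h1]; ring
      have e2 : (u' : ZMod G) = z i - 1 := by rw [h2]; ring
      push_cast
      rw [e1, e2]; ring
  obtain ⟨ε, hε1, hε2, hε3⟩ := key
  obtain ⟨w, hw⟩ := (ZMod.intCast_zmod_eq_zero_iff_dvd _ _).1 hε3
  have hw' : (u : ℝ) - u' - ε = G * w := by exact_mod_cast hw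
  have f1 := Int.floor_le ((G : ℝ) * x)
  have f2 := Int.lt_floor_add_one ((G : ℝ) * x)
  have f3 := Int.floor_le ((G : ℝ) * x')
  have f4 := Int.lt_floor_add_one ((G : ℝ) * x')
  rw [← hu] at f1 f2
  rw [← hu'] at f3 f4
  have g1 : (-1 : ℝ) ≤ ε := by exact_mod_cast hε1
  have g2 : (ε : ℝ) ≤ 1 := by exact_mod_cast hε2
  have h3 : |(G : ℝ) * (x - x' - w)| < 2 := by
    rw [abs_lt]
    constructor <;> nlinarith
  have h4 : (G : ℝ) * nn (x - x') < 2 := by
    refine lt_of_le_of_lt ?_ h3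
    rw [abs_mul, abs_of_pos hG]
    exact mul_le_mul_of_nonneg_left (nn_le _ w) hG.le
  have h5 : 4 ≤ (G : ℝ) * nn (x - x') := by
    rw [div_le_iff₀ hG] at h
    linarith
  linarith

/-- times at which the blocks are disjoint -/
theorem times (G e Q n J : ℕ) [NeZero G] (b : ι → Fin (e + 2) → Fin Q)
    (h : ∃ i, Rich (ap e Q (b i)) n J ((4 : ℝ) / G)) :
    ∃ t : ℕ → ℕ, (∀ a < n, t a ≤ J) ∧
      ∀ a < n, ∀ a' < n, a ≠ a' → Disjoint (blk G e Q b (t a)) (blk G e Q b (t a')) := by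
  obtain ⟨i, t, h1, h2⟩ := h
  refine ⟨fun a => if h : a < n then t ⟨a, h⟩ else 0, fun a ha => ?_, fun a ha a' ha' hne => ?_⟩
  · simp only [ha, dif_pos]
    exact h1 _
  · simp only [ha, ha', dif_pos]
    apply blk_disjoint G e Q b _ _ i
    apply h2
    intro h3
    exact hne (congrArg Fin.val h3)

/-- approximation of the coefficients -/
theorem approx (e G J : ℕ) (b : Fin (e + 2) → ℝ) :
    ∃ b' : Fin (e + 2) → Fin (fine e G J), ∀ j ≤ J, ∃ z : ℤ,
      0 ≤ (∑ l, b l * (j : ℝ) ^ (l : ℕ)) - ap e (fine e G J) b' j - z ∧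
      (G : ℝ) * ((∑ l, b l * (j : ℝ) ^ (l : ℕ)) - ap e (fine e G J) b' j - z) < 1 := by
  set Q := fine e G J with hQ
  have hQpos : 0 < Q := by rw [hQ]; unfold fine; omega
  have hQr : (0 : ℝ) < Q := Nat.cast_pos.2 hQpos
  have hlt : ∀ l, ⌊(Q : ℝ) * Int.fract (b l)⌋₊ < Q := by
    intro l
    rw [Nat.floor_lt (mul_nonneg hQr.le (Int.fract_nonneg _))]
    calc (Q : ℝ) * Int.fract (b l) < Q * 1 := mul_lt_mul_of_pos_left (Int.fract_lt_one _) hQr
      _ = Q := mul_one _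
  refine ⟨fun l => ⟨⌊(Q : ℝ) * Int.fract (b l)⌋₊, hlt l⟩, fun j hj => ?_⟩
  refine ⟨∑ l : Fin (e + 2), ⌊b l⌋ * (j : ℤ) ^ (l : ℕ), ?_⟩
  have e1 : (∑ l, b l * (j : ℝ) ^ (l : ℕ)) -
      ap e Q (fun l => ⟨⌊(Q : ℝ) * Int.fract (b l)⌋₊, hlt l⟩) j -
      ((∑ l : Fin (e + 2), ⌊b l⌋ * (j : ℤ) ^ (l : ℕ) : ℤ) : ℝ) =
      ∑ l : Fin (e + 2), (Int.fract (b l) - (⌊(Q : ℝ) * Int.fract (b l)⌋₊ : ℝ) / Q) *
        (j : ℝ) ^ (l : ℕ) := by
    unfold ap
    push_cast
    rw [← Finset.sum_sub_distrib, ← Finset.sum_sub_distrib]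
    apply Finset.sum_congr rfl
    intro l _
    unfold Int.fract
    ring
  rw [e1]
  have h0 : ∀ l, 0 ≤ Int.fract (b l) - (⌊(Q : ℝ) * Int.fract (b l)⌋₊ : ℝ) / Q := by
    intro l
    rw [sub_nonneg, div_le_iff₀ hQr, mul_comm (Int.fract (b l))]
    exact Nat.floor_le (mul_nonneg hQr.le (Int.fract_nonneg _))
  have h1 : ∀ l, Int.fract (b l) - (⌊(Q : ℝ) * Int.fract (b l)⌋₊ : ℝ) / Q ≤ 1 / Q := by
    intro l
    rw [sub_le_iff_le_add, ← add_div, le_div_iff₀ hQr, mul_comm (Int.fract (b l)), add_comm]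
    exact (Nat.lt_floor_add_one _).le
  have h2 : ∀ l : Fin (e + 2), (j : ℝ) ^ (l : ℕ) ≤ ((J : ℝ) + 1) ^ (e + 1) := by
    intro l
    have a1 : (j : ℝ) ≤ J + 1 := by
      have : (j : ℝ) ≤ J := by exact_mod_cast hj
      linarith
    calc (j : ℝ) ^ (l : ℕ) ≤ ((J : ℝ) + 1) ^ (l : ℕ) :=
          pow_le_pow_left₀ (Nat.cast_nonneg _) a1 _
      _ ≤ ((J : ℝ) + 1) ^ (e + 1) := by
          apply pow_le_pow_right₀
          · have : (0 : ℝ) ≤ J := Nat.cast_nonneg _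
            linarith
          · have := l.2; omega
  constructor
  · exact Finset.sum_nonneg (fun l _ => mul_nonneg (h0 l) (by positivity))
  · have h3 : ∑ l : Fin (e + 2), (Int.fract (b l) - (⌊(Q : ℝ) * Int.fract (b l)⌋₊ : ℝ) / Q) *
        (j : ℝ) ^ (l : ℕ) ≤ ∑ _l : Fin (e + 2), 1 / Q * ((J : ℝ) + 1) ^ (e + 1) := by
      apply Finset.sum_le_sum
      intro l _
      exact mul_le_mul (h1 l) (h2 l) (by positivity) (by positivity)
    rw [Finset.sum_const, Finset.card_univ, Fintype.card_fin, nsmul_eq_mul] at h3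
    have hG0 : (0 : ℝ) ≤ G := Nat.cast_nonneg _
    have h4 := mul_le_mul_of_nonneg_left h3 hG0
    refine lt_of_le_of_lt h4 ?_
    have e2 : (G : ℝ) * (((e + 2 : ℕ) : ℝ) * (1 / Q * ((J : ℝ) + 1) ^ (e + 1))) =
        (((e + 2) * (J + 1) ^ (e + 1) * G : ℕ) : ℝ) / Q := by
      push_cast; ring
    rw [e2, div_lt_one hQr]
    have : (e + 2) * (J + 1) ^ (e + 1) * G < Q := by rw [hQ]; unfold fine; omega
    exact_mod_cast this

/-- the approximated system is rich and the cells stay in the blocks -/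
theorem key (G e J n : ℕ) [NeZero G] (y : ι → ℕ → ℝ) (b : ι → Fin (e + 2) → ℝ)
    (hy : ∀ i j, y i j = ∑ l, b i l * (j : ℝ) ^ (l : ℕ)) (i0 : ι)
    (hrich : Rich (y i0) n J ((6 : ℝ) / G)) :
    ∃ b' : ι → Fin (e + 2) → Fin (fine e G J),
      (∃ i, Rich (ap e (fine e G J) (b' i)) n J ((4 : ℝ) / G)) ∧
      ∀ j ≤ J, (fun i => ((⌊(G : ℝ) * y i j⌋ : ℤ) : ZMod G)) ∈ blk G e (fine e G J) b' j := by
  have hG : (0 : ℝ) < G := Nat.cast_pos.2 (Nat.pos_of_ne_zero (NeZero.ne G))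
  choose b' hb' using fun i => approx e G J (b i)
  refine ⟨b', ⟨i0, ?_⟩, ?_⟩
  · obtain ⟨t, h1, h2⟩ := hrich
    refine ⟨t, h1, fun a a' hne => ?_⟩
    have h3 := h2 a a' hne
    have close : ∀ j ≤ J, nn (y i0 j - ap e (fine e G J) (b' i0) j) ≤ 1 / G := by
      intro j hj
      obtain ⟨z, hz1, hz2⟩ := hb' i0 j hj
      rw [← hy] at hz1 hz2
      refine (nn_le _ z).trans ?_
      rw [abs_of_nonneg hz1, le_div_iff₀ hG, mul_comm]
      exact hz2.le
    have c1 := close _ (h1 a)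
    have c2 := close _ (h1 a')
    have e1 : y i0 (t a) - y i0 (t a') =
        ((y i0 (t a) - ap e (fine e G J) (b' i0) (t a)) -
          (y i0 (t a') - ap e (fine e G J) (b' i0) (t a'))) +
        (ap e (fine e G J) (b' i0) (t a) - ap e (fine e G J) (b' i0) (t a')) := by ring
    rw [e1] at h3
    have c3 := nn_add_le ((y i0 (t a) - ap e (fine e G J) (b' i0) (t a)) -
          (y i0 (t a') - ap e (fine e G J) (b' i0) (t a')))
        (ap e (fine e G J) (b' i0) (t a) - ap e (fine e G J) (b' i0) (t a'))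
    have c4 := nn_sub_le (y i0 (t a) - ap e (fine e G J) (b' i0) (t a))
          (y i0 (t a') - ap e (fine e G J) (b' i0) (t a'))
    have c5 : (6 : ℝ) / G = 4 / G + (1 / G + 1 / G) := by ring
    linarith
  · intro j hj
    unfold blk
    rw [Fintype.mem_piFinset]
    intro i
    obtain ⟨z, hz1, hz2⟩ := hb' i j hj
    rw [← hy] at hz1 hz2
    rw [Finset.mem_insert, Finset.mem_singleton]
    set x := ap e (fine e G J) (b' i) j with hx
    set u := ⌊(G : ℝ) * x⌋ with hu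
    have f1 := Int.floor_le ((G : ℝ) * x)
    have f2 := Int.lt_floor_add_one ((G : ℝ) * x)
    rw [← hu] at f1 f2
    have hz1' : 0 ≤ (G : ℝ) * (y i j - x - z) := mul_nonneg hG.le hz1
    have hGz : (((G : ℤ) * z : ℤ) : ZMod G) = 0 := by
      push_cast
      rw [ZMod.natCast_self, zero_mul]
    have h6 : ⌊(G : ℝ) * y i j⌋ = u + G * z ∨ ⌊(G : ℝ) * y i j⌋ = u + G * z + 1 := by
      by_cases hc : (G : ℝ) * y i j < u + G * z + 1
      · left
        rw [Int.floor_eq_iff]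
        push_cast
        constructor
        · nlinarith
        · linarith
      · right
        push Not at hc
        rw [Int.floor_eq_iff]
        push_cast
        constructor
        · linarith
        · nlinarith
    rcases h6 with h6 | h6
    · left
      show ((⌊(G : ℝ) * y i j⌋ : ℤ) : ZMod G) = _
      rw [h6, Int.cast_add, hGz, add_zero]
    · right
      show ((⌊(G : ℝ) * y i j⌋ : ℤ) : ZMod G) = _
      rw [h6, Int.cast_add, Int.cast_add, hGz, add_zero, Int.cast_one]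

end Pool.Agent.W97.TL
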