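import Mathlib

/-!
A counting lemma: if there are few families of many pairwise disjoint small blocks then some
two-colouring of the points makes, in each family, one block `true` and one block `false`.
-/

set_option autoImplicit false

namespace Pool.Agent.W97.TL

variable {Ω : Type} [Fintype Ω] [DecidableEq Ω]

/-- the colourings with no block of the given colour among the first `n` blocks -/
theorem card_avoid (b : ℕ) (v : Bool) : ∀ (n : ℕ) (B : ℕ → Finset Ω),
    (∀ i < n, (B i).card ≤ b) → (∀ i < n, ∀ j < n, i ≠ j → Disjoint (B i) (B j)) →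
    ((Finset.univ.filter (fun F : Ω → Bool => ∀ i < n, ∃ z ∈ B i, F z ≠ v)).card : ℝ) ≤
      2 ^ Fintype.card Ω * (1 - 1 / 2 ^ b) ^ n := by
  intro n
  induction n with
  | zero =>
    intro B _ _
    simp
  | succ n ih =>
    intro B hb hd
    have ih' := ih B (fun i hi => hb i (by omega)) (fun i hi j hj => hd i (by omega) j (by omega))
    set A := Finset.univ.filter (fun F : Ω → Bool => ∀ i < n, ∃ z ∈ B i, F z ≠ v) with hA
    set A' := Finset.univ.filter (fun F : Ω → Bool => ∀ i < n + 1, ∃ z ∈ B i, F z ≠ v) with hA'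
    set T := A.filter (fun F : Ω → Bool => ∀ z ∈ B n, F z = v) with hT
    -- `A' = A \ T`
    have h1 : A' = A \ T := by
      ext F
      simp only [hA', hA, hT, Finset.mem_filter, Finset.mem_univ, true_and, Finset.mem_sdiff,
        not_and, not_forall]
      constructor
      · intro h
        refine ⟨fun i hi => h i (by omega), fun _ => ?_⟩
        obtain ⟨z, hz, hz2⟩ := h n (by omega)
        exact ⟨z, hz, hz2⟩
      · rintro ⟨h, h2⟩ i hi
        rcases Nat.lt_succ_iff_lt_or_eq.1 hi with h3 | h3
        · exact h i h3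
        · obtain ⟨z, hz, hz2⟩ := h2 h
          rw [h3]
          exact ⟨z, hz, hz2⟩
    -- the projection
    let p : (Ω → Bool) → (Ω → Bool) := fun F z => if z ∈ B n then v else F z
    have h2 : A.card ≤ 2 ^ b * T.card := by
      have hmap : ∀ F ∈ A, p F ∈ T := by
        intro F hF
        simp only [hA, hT, Finset.mem_filter, Finset.mem_univ, true_and] at hF ⊢
        refine ⟨fun i hi => ?_, fun z hz => ?_⟩
        · obtain ⟨z, hz, hz2⟩ := hF i hi
          refine ⟨z, hz, ?_⟩
          have : z ∉ B n := fun h => (Finset.disjoint_left.1 (hd i (by omega) n (by omega)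
            (by omega)) hz) h
          simp only [p, if_neg this]
          exact hz2
        · simp only [p, if_pos hz]
      refine Finset.card_le_mul_card_image_of_maps_to hmap (2 ^ b) ?_
      intro F' _
      -- the fibre
      have h3 : (A.filter (fun F => p F = F')).card ≤ (Finset.univ : Finset (B n → Bool)).card := by
        apply Finset.card_le_card_of_injOn (fun F => fun z : B n => F z)
        · intro F _; exact Finset.mem_coe.2 (Finset.mem_univ _)
        · intro F1 h1 F2 h2 h12
          simp only [Finset.coe_filter, Set.mem_ofPred_eq] at h1 h2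
          funext z
          by_cases hz : z ∈ B n
          · exact congrFun h12 ⟨z, hz⟩
          · have e1 := congrFun (h1.2.trans h2.2.symm) z
            simpa only [p, if_neg hz] using e1
      refine h3.trans ?_
      rw [Finset.card_univ, Fintype.card_fun, Fintype.card_bool, Fintype.card_coe]
      exact Nat.pow_le_pow_right (by norm_num) (hb n (by omega))
    have h3 : (A'.card : ℝ) = A.card - T.card := by
      rw [h1, Finset.card_sdiff_of_subset (Finset.filter_subset _ _),
        Nat.cast_sub (Finset.card_le_card (Finset.filter_subset _ _))]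
    have h4 : (A.card : ℝ) / 2 ^ b ≤ T.card := by
      rw [div_le_iff₀ (by positivity)]
      have : (A.card : ℝ) ≤ ((2 ^ b * T.card : ℕ) : ℝ) := by exact_mod_cast h2
      push_cast at this
      linarith
    have h5 : (A'.card : ℝ) ≤ A.card * (1 - 1 / 2 ^ b) := by
      rw [h3]
      have : (A.card : ℝ) * (1 - 1 / 2 ^ b) = A.card - A.card / 2 ^ b := by ring
      rw [this]
      linarith
    have h6 : (0 : ℝ) ≤ 1 - 1 / 2 ^ b := by
      rw [sub_nonneg, div_le_one (by positivity)]
      exact one_le_pow₀ (by norm_num)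
    calc (A'.card : ℝ) ≤ A.card * (1 - 1 / 2 ^ b) := h5
      _ ≤ (2 ^ Fintype.card Ω * (1 - 1 / 2 ^ b) ^ n) * (1 - 1 / 2 ^ b) :=
        mul_le_mul_of_nonneg_right ih' h6
      _ = 2 ^ Fintype.card Ω * (1 - 1 / 2 ^ b) ^ (n + 1) := by rw [pow_succ]; ring

/-- the hitting lemma -/
theorem exists_colouring {E : Type} [Fintype E] [DecidableEq E] (b : ℕ) (n : E → ℕ)
    (B : E → ℕ → Finset Ω)
    (hb : ∀ e, ∀ i < n e, (B e i).card ≤ b)
    (hd : ∀ e, ∀ i < n e, ∀ j < n e, i ≠ j → Disjoint (B e i) (B e j))
    (hsum : ∑ e : E, 2 * (1 - 1 / 2 ^ b : ℝ) ^ (n e) < 1) :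
    ∃ F : Ω → Bool, ∀ e, ∀ v : Bool, ∃ i < n e, ∀ z ∈ B e i, F z = v := by
  by_contra hcon
  push Not at hcon
  have h1 : (Finset.univ : Finset (Ω → Bool)) ⊆
      (Finset.univ : Finset (E × Bool)).biUnion (fun ev =>
        Finset.univ.filter (fun F : Ω → Bool => ∀ i < n ev.1, ∃ z ∈ B ev.1 i, F z ≠ ev.2)) := by
    intro F _
    obtain ⟨e, v, h⟩ := hcon F
    rw [Finset.mem_biUnion]
    refine ⟨(e, v), Finset.mem_univ _, ?_⟩
    rw [Finset.mem_filter]
    exact ⟨Finset.mem_univ _, fun i hi => h i hi⟩
  have h2 := (Finset.card_le_card h1).trans Finset.card_biUnion_le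
  have h3 : ((Finset.univ : Finset (Ω → Bool)).card : ℝ) ≤
      ∑ ev : E × Bool, (2 ^ Fintype.card Ω * (1 - 1 / 2 ^ b : ℝ) ^ (n ev.1)) := by
    refine (Nat.cast_le.2 h2).trans ?_
    push_cast
    apply Finset.sum_le_sum
    intro ev _
    exact card_avoid b ev.2 (n ev.1) (B ev.1) (hb ev.1) (hd ev.1)
  rw [Finset.card_univ, Fintype.card_fun, Fintype.card_bool, ← Finset.mul_sum,
    Fintype.sum_prod_type] at h3
  push_cast at h3
  have h4 : (0 : ℝ) < 2 ^ Fintype.card Ω := by positivity
  have h5 : (1 : ℝ) ≤ ∑ e : E, ∑ _v : Bool, (1 - 1 / 2 ^ b : ℝ) ^ (n e) := by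
    by_contra h6
    push Not at h6
    have := mul_lt_mul_of_pos_left h6 h4
    rw [mul_one] at this
    linarith
  have h6 : ∑ e : E, ∑ _v : Bool, (1 - 1 / 2 ^ b : ℝ) ^ (n e) =
      ∑ e : E, 2 * (1 - 1 / 2 ^ b : ℝ) ^ (n e) := by
    apply Finset.sum_congr rfl
    intro e _
    simp
  rw [h6] at h5
  linarith

end Pool.Agent.W97.TL
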