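import Pool.Agent.W97.TL.Hit
import Pool.Agent.W97.TL.Pow
import Pool.Agent.W97.TL.Block

/-!
Two-large sets are sets of polynomial Bohr recurrence.
-/

set_option autoImplicit false

namespace Pool.Agent.W97.TL

open Polynomial in
/-- the coefficients of a power along a progression -/
theorem coeffs (e r : ℕ) (hr : r ≤ e + 1) (c : ℝ) (a s : ℕ) :
    ∃ b : Fin (e + 2) → ℝ, ∀ j : ℕ,
      c * ((a + j * s : ℕ) : ℝ) ^ r = ∑ l, b l * (j : ℝ) ^ (l : ℕ) := by
  set P : ℝ[X] := C c * (C (a : ℝ) + X * C (s : ℝ)) ^ r with hP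
  have hdeg : P.natDegree < e + 2 := by
    have h1 : (C (a : ℝ) + X * C (s : ℝ)).natDegree ≤ 1 := by
      compute_degree
    have h2 : P.natDegree ≤ r * 1 := by
      rw [hP]
      refine (natDegree_C_mul_le _ _).trans ?_
      exact (natDegree_pow_le).trans (Nat.mul_le_mul_left _ h1)
    omega
  refine ⟨fun l => P.coeff l, fun j => ?_⟩
  have h3 := eval_eq_sum_range' hdeg (j : ℝ)
  rw [Finset.sum_range] at h3
  rw [← h3, hP]
  simp

theorem not_two_large {ι : Type} [Fintype ι] [DecidableEq ι] (e : ℕ) (θ : ι → ℝ) (r : ι → ℕ)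
    (hr1 : ∀ i, 1 ≤ r i) (hr2 : ∀ i, r i ≤ e + 1) (δ : ℝ) (hδ : 0 < δ) (S : Set ℕ)
    (hS : ∀ s ∈ S, ∃ i, δ ≤ nn (θ i * (s : ℝ) ^ (r i))) :
    ∃ (c : ℕ → Bool) (k : ℕ), ∀ a : ℕ, ∀ s ∈ S, ∃ j < k, c (a + j * s) ≠ c a := by
  classical
  obtain ⟨R, hR, hp1, hp2⟩ := params e (2 ^ Fintype.card ι) (Fintype.card ι * (e + 2)) δ hδ
  set m := R ^ (2 ^ e) with hm
  set K1 := R ^ (2 ^ e + 2) with hK1
  set G := 48 * 4 ^ e * K1 ^ (2 ^ e) with hG
  set J1 := m + e with hJ1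
  set J2 := m * (⌈(m.factorial : ℝ) / δ⌉₊ + 1) + e with hJ2
  have hGpos : 0 < G := by
    have : 0 < K1 := Nat.pow_pos hR
    positivity
  have : NeZero G := ⟨hGpos.ne'⟩
  let E1 := {b : ι → Fin (e + 2) → Fin (fine e G J1) //
    ∃ i, Rich (ap e (fine e G J1) (b i)) R J1 ((4 : ℝ) / G)}
  let E2 := {b : ι → Fin (e + 2) → Fin (fine e G J2) //
    ∃ i, Rich (ap e (fine e G J2) (b i)) K1 J2 ((4 : ℝ) / G)}
  choose t1 ht1 hd1 using fun b : E1 => times G e (fine e G J1) R J1 b.1 b.2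
  choose t2 ht2 hd2 using fun b : E2 => times G e (fine e G J2) K1 J2 b.1 b.2
  have : Fintype E1 := Fintype.ofFinite _
  have : Fintype E2 := Fintype.ofFinite _
  have hc1 : (Fintype.card E1 : ℝ) ≤ (fine e G J1 : ℝ) ^ (Fintype.card ι * (e + 2)) := by
    have h1 : Fintype.card E1 ≤ Fintype.card (ι → Fin (e + 2) → Fin (fine e G J1)) :=
      Fintype.card_subtype_le _
    rw [Fintype.card_fun, Fintype.card_fun, Fintype.card_fin, Fintype.card_fin, ← pow_mul,
      mul_comm (e + 2)] at h1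
    exact_mod_cast h1
  have hc2 : (Fintype.card E2 : ℝ) ≤ (fine e G J2 : ℝ) ^ (Fintype.card ι * (e + 2)) := by
    have h1 : Fintype.card E2 ≤ Fintype.card (ι → Fin (e + 2) → Fin (fine e G J2)) :=
      Fintype.card_subtype_le _
    rw [Fintype.card_fun, Fintype.card_fun, Fintype.card_fin, Fintype.card_fin, ← pow_mul,
      mul_comm (e + 2)] at h1
    exact_mod_cast h1
  set lam : ℝ := 1 - 1 / 2 ^ (2 ^ Fintype.card ι) with hlam
  have hlam0 : 0 ≤ lam := by
    rw [hlam, sub_nonneg, div_le_one (by positivity)]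
    exact one_le_pow₀ (by norm_num)
  obtain ⟨F, hF⟩ := exists_colouring (Ω := ι → ZMod G) (E := E1 ⊕ E2) (2 ^ Fintype.card ι)
    (Sum.elim (fun _ => R) (fun _ => K1))
    (Sum.elim (fun b a => blk G e _ b.1 (t1 b a)) (fun b a => blk G e _ b.1 (t2 b a)))
    (by
      rintro (b | b) i _
      · exact card_blk _ _ _ _ _
      · exact card_blk _ _ _ _ _)
    (by
      rintro (b | b)
      · exact hd1 b
      · exact hd2 b)
    (by
      rw [Fintype.sum_sum_type]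
      simp only [Sum.elim_inl, Sum.elim_inr, Finset.sum_const, Finset.card_univ, nsmul_eq_mul]
      have h1 := mul_le_mul_of_nonneg_right hc1 (show 0 ≤ 2 * lam ^ R by positivity)
      have h2 := mul_le_mul_of_nonneg_right hc2 (show 0 ≤ 2 * lam ^ K1 by positivity)
      linarith)
  refine ⟨fun n => F (fun i => ((⌊(G : ℝ) * (θ i / (m.factorial * (r i).factorial) *
    (n : ℝ) ^ (r i))⌋ : ℤ) : ZMod G)), max J1 J2 + 1, fun a s hs => ?_⟩
  obtain ⟨i, hi⟩ := hS s hs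
  choose b hb using fun i => coeffs e (r i) (hr2 i) (θ i / (m.factorial * (r i).factorial)) a s
  by_contra hcon
  push Not at hcon
  have hrich := rich_pow e R hR (θ i) δ hδ (r i) (hr1 i) (hr2 i) a s hi
  rcases hrich with h | h
  · obtain ⟨b', hb1, hb2⟩ := key G e J1 R
      (fun i j => θ i / (m.factorial * (r i).factorial) * ((a + j * s : ℕ) : ℝ) ^ (r i))
      b hb i h
    obtain ⟨x, hx, hz⟩ := hF (Sum.inl ⟨b', hb1⟩)
      (!(F (fun i => ((⌊(G : ℝ) * (θ i / (m.factorial * (r i).factorial) *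
        (a : ℝ) ^ (r i))⌋ : ℤ) : ZMod G))))
    have h1 := hb2 (t1 ⟨b', hb1⟩ x) (ht1 _ x hx)
    have h2 := hz _ h1
    have h3 := hcon (t1 ⟨b', hb1⟩ x) (by
      have := ht1 ⟨b', hb1⟩ x hx
      have := le_max_left J1 J2
      omega)
    rw [h2] at h3
    simp at h3
  · obtain ⟨b', hb1, hb2⟩ := key G e J2 K1
      (fun i j => θ i / (m.factorial * (r i).factorial) * ((a + j * s : ℕ) : ℝ) ^ (r i))
      b hb i h
    obtain ⟨x, hx, hz⟩ := hF (Sum.inr ⟨b', hb1⟩)
      (!(F (fun i => ((⌊(G : ℝ) * (θ i / (m.factorial * (r i).factorial) *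
        (a : ℝ) ^ (r i))⌋ : ℤ) : ZMod G))))
    have h1 := hb2 (t2 ⟨b', hb1⟩ x) (ht2 _ x hx)
    have h2 := hz _ h1
    have h3 := hcon (t2 ⟨b', hb1⟩ x) (by
      have := ht2 ⟨b', hb1⟩ x hx
      have := le_max_right J1 J2
      omega)
    rw [h2] at h3
    simp at h3

end Pool.Agent.W97.TL
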