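import Pool.Agent.W97.TL.Assem

/-!
Two-large sets and bracket quadratics.
-/

set_option autoImplicit false

namespace Pool.Agent.W97.TL

theorem not_two_large2 {κ ι : Type} [Fintype κ] [DecidableEq κ] [Fintype ι] [DecidableEq ι]
    (e : ℕ) (he : 1 ≤ e) (θ : κ → ℝ) (r : κ → ℕ)
    (hr1 : ∀ i, 1 ≤ r i) (hr2 : ∀ i, r i ≤ e + 1) (c : ι → ℝ) (l : ι → κ) (hl : ∀ i, r (l i) = 1)
    (δ : ℝ) (hδ : 0 < δ) (S : Set ℕ)
    (hS : ∀ s ∈ S, (∃ i, δ ≤ nn (θ i * (s : ℝ) ^ (r i))) ∨
      ∃ i, δ ≤ nn (c i * (s * (round (θ (l i) * s) : ℝ)))) :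
    ∃ (c : ℕ → Bool) (k : ℕ), ∀ a : ℕ, ∀ s ∈ S, ∃ j < k, c (a + j * s) ≠ c a := by
  classical
  obtain ⟨R, hR, hp1, hp2, hp3⟩ := params2 e (2 ^ Fintype.card (κ ⊕ ι))
    (Fintype.card (κ ⊕ ι) * (e + 6)) (Fintype.card ι) δ hδ
  set m := R ^ (2 ^ e) with hm
  set K1 := R ^ (2 ^ e + 2) with hK1
  set η := eta e R (Fintype.card ι) δ with hη
  have hNpos : (0 : ℝ) < (((Fintype.card ι + 1) * (JB e R δ + 1) : ℕ) : ℝ) := by
    rw [Nat.cast_pos]; positivity
  have hη0 : 0 < η := by
    rw [hη]; unfold eta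
    positivity
  have hmf : ((m.factorial : ℕ) : ℝ) ≠ 0 := Nat.cast_ne_zero.2 (Nat.factorial_ne_zero _)
  set nq : Fin 3 → ℕ := ![R, K1, K1] with hnq
  set Jq : Fin 3 → ℕ := ![JA e R, JB e R δ, JB e R η] with hJq
  let y : κ ⊕ ι → ℕ → ℝ := Sum.elim
    (fun i n => θ i / (m.factorial * (r i).factorial) * (n : ℝ) ^ (r i))
    (fun i n => c i / (2 * m.factorial) * ((n : ℝ) * (⌊θ (l i) * (n : ℝ)⌋ : ℝ)))
  apply assemble e R he hR nq Jq ?_ y S ((Fintype.card ι) * (JB e R δ + 1)) ?_
  · intro q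
    fin_cases q
    · exact hp1
    · exact hp2
    · exact hp3
  intro a s hs
  by_cases hI : ∃ i, η ≤ nn (θ i * (s : ℝ) ^ (r i))
  · -- type I
    obtain ⟨i, hi⟩ := hI
    -- representation for every length
    have rep : ∀ J : ℕ, ∃ (p : κ ⊕ ι → Code J) (b : κ ⊕ ι → TT e → ℝ), ∀ i, ∀ j ≤ J,
        y i (a + (0 + j) * s) = ∑ t, b i t * (phi e J (p i) t j : ℝ) := by
      intro J
      have h1 : ∀ i : κ ⊕ ι, ∃ (p : Code J) (b : TT e → ℝ), ∀ j ≤ J,
          y i (a + (0 + j) * s) = ∑ t, b t * (phi e J p t j : ℝ) := by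
        rintro (i | i)
        · obtain ⟨p0, _⟩ := exists_car J 0 0 le_rfl one_pos le_rfl one_pos
          obtain ⟨b, hb⟩ := coeffsP e (r i) (hr2 i) (θ i / (m.factorial * (r i).factorial)) a s
          refine ⟨p0, Sum.elim b (fun _ => 0), fun j _ => ?_⟩
          rw [Fintype.sum_sum_type]
          simp only [Sum.elim_inl, Sum.elim_inr, zero_mul, Finset.sum_const_zero, add_zero, y,
            zero_add]
          rw [hb]
          apply Finset.sum_congr rfl
          intro l' _
          simp only [phi, Nat.cast_pow]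
        · set α := θ (l i) with hα
          obtain ⟨p, hp⟩ := exists_car J (Int.fract (α * a)) (Int.fract (α * s))
            (Int.fract_nonneg _) (Int.fract_lt_one _) (Int.fract_nonneg _) (Int.fract_lt_one _)
          set C := c i / (2 * m.factorial) with hC
          obtain ⟨b, hb⟩ := coeffsQ e he C a s (⌊α * a⌋ : ℝ) (⌊α * s⌋ : ℝ)
          refine ⟨p, Sum.elim b (fun x => if x then C * s else C * a), fun j hj => ?_⟩
          rw [Fintype.sum_sum_type]
          simp only [Sum.elim_inl, Sum.elim_inr, Fintype.sum_bool, phi, Nat.cast_pow,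
            Nat.cast_mul, if_true, Bool.false_eq_true, if_false, y, zero_add]
          rw [← hb j, ← hp j hj, ← hα, ← hC]
          have hfl : ⌊α * ((a + j * s : ℕ) : ℝ)⌋ = ⌊α * a⌋ + j * ⌊α * s⌋ +
              ((⌊Int.fract (α * a) + (j : ℝ) * Int.fract (α * s)⌋₊ : ℕ) : ℤ) := by
            have e1 : α * ((a + j * s : ℕ) : ℝ) = (Int.fract (α * a) + (j : ℝ) * Int.fract (α * s)) +
                ((⌊α * a⌋ + j * ⌊α * s⌋ : ℤ) : ℝ) := by
              unfold Int.fract
              push_cast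
              ring
            rw [e1, Int.floor_add_intCast, Int.natCast_floor_eq_floor
              (add_nonneg (Int.fract_nonneg _) (mul_nonneg (Nat.cast_nonneg _)
                (Int.fract_nonneg _)))]
            ring
          rw [hfl]
          push_cast
          ring
      choose p b hpb using h1
      exact ⟨p, b, hpb⟩
    have hrich : Rich (fun j => y (Sum.inl i) (a + (0 + j) * s)) R (JA e R)
          ((6 : ℝ) / (GG e R : ℕ)) ∨
        Rich (fun j => y (Sum.inl i) (a + (0 + j) * s)) K1 (JB e R η)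
          ((6 : ℝ) / (GG e R : ℕ)) := by
      have h2 := rich_pow e R hR (θ i) η hη0 (r i) (hr1 i) (hr2 i) a s hi
      simp only [zero_add]
      exact h2
    rcases hrich with h | h
    · obtain ⟨p, b, hpb⟩ := rep (JA e R)
      exact ⟨0, Nat.zero_le _, 0, p, b, Sum.inl i, hpb, h⟩
    · obtain ⟨p, b, hpb⟩ := rep (JB e R η)
      exact ⟨0, Nat.zero_le _, 2, p, b, Sum.inl i, hpb, h⟩
  · -- type II
    push Not at hI
    have hηle : η ≤ δ := by
      rw [hη]
      unfold eta
      rw [div_le_iff₀ hNpos]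
      -- `1 ≤ δ * ((N+1) * (JB+1))`
      have h1 : 1 / δ ≤ (JB e R δ : ℝ) := by
        have h2 : (1 : ℝ) / δ ≤ (m.factorial : ℝ) / δ := by
          apply div_le_div_of_nonneg_right _ hδ.le
          exact_mod_cast Nat.factorial_pos m
        have h3 := Nat.le_ceil ((m.factorial : ℝ) / δ)
        have h4 : ⌈(m.factorial : ℝ) / δ⌉₊ ≤ JB e R δ := by
          unfold JB
          have h5 : 1 ≤ m := Nat.pow_pos hR
          have h6 : ⌈(m.factorial : ℝ) / δ⌉₊ + 1 ≤ m * (⌈(m.factorial : ℝ) / δ⌉₊ + 1) :=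
            Nat.le_mul_of_pos_left _ h5
          show ⌈(m.factorial : ℝ) / δ⌉₊ ≤ m * (⌈(m.factorial : ℝ) / δ⌉₊ + 1) + e
          omega
        have h7 : ((⌈(m.factorial : ℝ) / δ⌉₊ : ℕ) : ℝ) ≤ (JB e R δ : ℝ) := by exact_mod_cast h4
        linarith
      rw [div_le_iff₀ hδ] at h1
      have h8 : (JB e R δ : ℝ) ≤ (((Fintype.card ι + 1) * (JB e R δ + 1) : ℕ) : ℝ) := by
        have : JB e R δ ≤ (Fintype.card ι + 1) * (JB e R δ + 1) := by nlinarith
        exact_mod_cast this
      nlinarith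
    have hII : ∃ i, δ ≤ nn (c i * (s * (round (θ (l i) * s) : ℝ))) := by
      rcases hS s hs with ⟨i, hi⟩ | h
      · exact absurd (hηle.trans hi) (not_le.2 (hI i))
      · exact h
    obtain ⟨i, hi⟩ := hII
    have hlin : ∀ i : ι, |θ (l i) * s - (round (θ (l i) * s) : ℤ)| *
        (((Fintype.card ι + 1) * (JB e R δ + 1) : ℕ) : ℝ) < 1 := by
      intro i
      have h1 := hI (l i)
      rw [hl i, pow_one] at h1
      unfold nn at h1
      rw [hη] at h1
      unfold eta at h1
      rwa [lt_div_iff₀ hNpos] at h1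
    obtain ⟨j0, hj0, hwin⟩ := window (fun i => θ (l i)) (fun i => round (θ (l i) * s)) a s
      (JB e R δ) hlin
    have hJA : JA e R ≤ JB e R δ := by
      unfold JA JB
      have : R ^ (2 ^ e) ≤ R ^ (2 ^ e) * (⌈((R ^ (2 ^ e)).factorial : ℝ) / δ⌉₊ + 1) :=
        Nat.le_mul_of_pos_right _ (by omega)
      omega
    set a' := a + j0 * s with ha'
    have hshift : ∀ j, a + (j0 + j) * s = a' + j * s := by intro j; rw [ha']; ring
    have rep : ∀ J : ℕ, J ≤ JB e R δ → ∃ (p : κ ⊕ ι → Code J) (b : κ ⊕ ι → TT e → ℝ), ∀ i,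
        ∀ j ≤ J, y i (a + (j0 + j) * s) = ∑ t, b i t * (phi e J (p i) t j : ℝ) := by
      intro J hJ
      obtain ⟨p0, _⟩ := exists_car J 0 0 le_rfl one_pos le_rfl one_pos
      have h1 : ∀ i : κ ⊕ ι, ∃ (b : TT e → ℝ), ∀ j ≤ J,
          y i (a + (j0 + j) * s) = ∑ t, b t * (phi e J p0 t j : ℝ) := by
        rintro (i | i)
        · obtain ⟨b, hb⟩ := coeffsP e (r i) (hr2 i) (θ i / (m.factorial * (r i).factorial)) a' s
          refine ⟨Sum.elim b (fun _ => 0), fun j _ => ?_⟩
          rw [Fintype.sum_sum_type, hshift]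
          simp only [Sum.elim_inl, Sum.elim_inr, zero_mul, Finset.sum_const_zero, add_zero, y]
          rw [hb]
          apply Finset.sum_congr rfl
          intro l' _
          simp only [phi, Nat.cast_pow]
        · obtain ⟨b, hb⟩ := coeffsQ e he (c i / (2 * m.factorial)) a' s
            (⌊θ (l i) * (a' : ℝ)⌋ : ℝ) (round (θ (l i) * s) : ℝ)
          refine ⟨Sum.elim b (fun _ => 0), fun j hj => ?_⟩
          have h2 := hwin i j (hj.trans hJ)
          rw [hshift] at h2
          rw [Fintype.sum_sum_type, hshift]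
          simp only [Sum.elim_inl, Sum.elim_inr, zero_mul, Finset.sum_const_zero, add_zero, y]
          rw [h2]
          have h3 := hb j
          have h4 : c i / (2 * m.factorial) * (((a' + j * s : ℕ) : ℝ) *
              ((⌊θ (l i) * ((a + j0 * s : ℕ) : ℝ)⌋ + j * round (θ (l i) * s) : ℤ) : ℝ)) =
              c i / (2 * m.factorial) * ((a' + j * s) *
                ((⌊θ (l i) * (a' : ℝ)⌋ : ℝ) + j * (round (θ (l i) * s) : ℝ))) := by
            rw [← ha']
            push_cast
            ring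
          rw [h4, h3]
          apply Finset.sum_congr rfl
          intro l' _
          simp only [phi, Nat.cast_pow]
      choose b hb using h1
      exact ⟨fun _ => p0, b, hb⟩
    -- the polynomial which agrees with the bracket coordinate
    set yt : ℕ → ℝ := fun j => c i / (2 * m.factorial) * ((a' + j * s) *
      ((⌊θ (l i) * (a' : ℝ)⌋ : ℝ) + j * (round (θ (l i) * s) : ℝ))) with hyt
    have hagree : ∀ j ≤ JB e R δ, y (Sum.inr i) (a + (j0 + j) * s) = yt j := by
      intro j hj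
      have h2 := hwin i j hj
      rw [hshift] at h2 ⊢
      simp only [y, Sum.elim_inr, hyt]
      rw [h2]
      push_cast
      ring
    have hrich := rich_gen e 1 R he hR δ hδ yt
      (c i * (s * (round (θ (l i) * s) : ℝ)) / m.factorial) (by
        intro j
        show dif (dif yt) j = _
        unfold dif
        simp only [hyt]
        push_cast
        field_simp
        ring) (by
        have e1 : ((R ^ (2 ^ e)).factorial : ℝ) *
            (c i * (s * (round (θ (l i) * s) : ℝ)) / m.factorial) =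
            c i * (s * (round (θ (l i) * s) : ℝ)) := by
          rw [← hm]
          field_simp
        rw [e1]
        exact hi)
    have transfer : ∀ n J, J ≤ JB e R δ → Rich yt n J ((6 : ℝ) / (GG e R : ℕ)) →
        Rich (fun j => y (Sum.inr i) (a + (j0 + j) * s)) n J ((6 : ℝ) / (GG e R : ℕ)) := by
      rintro n J hJ ⟨t, ht1, ht2⟩
      refine ⟨t, ht1, fun x x' hne => ?_⟩
      have h1 := ht2 x x' hne
      show _ ≤ nn (y (Sum.inr i) (a + (j0 + t x) * s) - y (Sum.inr i) (a + (j0 + t x') * s))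
      rw [hagree _ ((ht1 x).trans hJ), hagree _ ((ht1 x').trans hJ)]
      exact h1
    rcases hrich with h | h
    · obtain ⟨p, b, hpb⟩ := rep (JA e R) hJA
      exact ⟨j0, hj0, 0, p, b, Sum.inr i, hpb, transfer _ _ hJA h⟩
    · obtain ⟨p, b, hpb⟩ := rep (JB e R δ) le_rfl
      exact ⟨j0, hj0, 1, p, b, Sum.inr i, hpb, transfer _ _ le_rfl h⟩

end Pool.Agent.W97.TL
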