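import Pool.Agent.W97.TL.Main

/-!
Recurrence of two-large sets: polynomials, rotations and unipotent affine maps of tori.
-/

set_option autoImplicit false

namespace Pool.Agent.W97.TL

/-- `S` is 2-large -/
def TwoLarge (S : Set ℕ) : Prop :=
  ∀ (c : ℕ → Bool) (k : ℕ), ∃ a s : ℕ, 1 ≤ a ∧ s ∈ S ∧ ∀ j < k, c (a + j * s) = c a

theorem nn_sum_le {κ : Type} (T : Finset κ) (f : κ → ℝ) : nn (∑ l ∈ T, f l) ≤ ∑ l ∈ T, nn (f l) := by
  classical
  induction T using Finset.induction_on with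
  | empty => simp [nn]
  | insert a T ha ih =>
    rw [Finset.sum_insert ha, Finset.sum_insert ha]
    exact (nn_add_le _ _).trans (by linarith)

open Polynomial in
theorem poly_rec {S : Set ℕ} (hS : TwoLarge S) {κ : Type} [Fintype κ] [DecidableEq κ]
    (P : κ → ℝ[X]) (hP : ∀ i, (P i).eval 0 = 0) (ε : ℝ) (hε : 0 < ε) :
    ∃ s ∈ S, ∀ i, nn ((P i).eval (s : ℝ)) < ε := by
  by_contra hcon
  push Not at hcon
  obtain ⟨D, hD⟩ : ∃ D : ℕ, ∀ i, (P i).natDegree ≤ D := by
    refine ⟨Finset.univ.sup (fun i => (P i).natDegree), fun i => ?_⟩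
    exact Finset.le_sup (f := fun i => (P i).natDegree) (Finset.mem_univ i)
  have hev : ∀ i (s : ℕ), (P i).eval (s : ℝ) =
      ∑ l : Fin D, (P i).coeff (l + 1) * (s : ℝ) ^ ((l : ℕ) + 1) := by
    intro i s
    rw [eval_eq_sum_range' (Nat.lt_succ_of_le (hD i)), Finset.sum_range_succ']
    have h0 : (P i).coeff 0 = 0 := by rw [coeff_zero_eq_eval_zero, hP]
    rw [h0, zero_mul, add_zero, Finset.sum_range]
  have h1 : ∀ s ∈ S, ∃ p : κ × Fin D, ε / (D + 1) ≤
      nn ((P p.1).coeff (p.2 + 1) * (s : ℝ) ^ ((p.2 : ℕ) + 1)) := by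
    intro s hs
    obtain ⟨i, hi⟩ := hcon s hs
    by_contra h2
    push Not at h2
    rw [hev] at hi
    have h3 := hi.trans (nn_sum_le Finset.univ _)
    have h4 : ∑ l : Fin D, nn ((P i).coeff (l + 1) * (s : ℝ) ^ ((l : ℕ) + 1)) ≤
        ∑ _l : Fin D, ε / (D + 1) := Finset.sum_le_sum (fun l _ => (h2 (i, l)).le)
    rw [Finset.sum_const, Finset.card_univ, Fintype.card_fin, nsmul_eq_mul] at h4
    have h5 : (D : ℝ) * (ε / (D + 1)) < ε := by
      have h6 : (0 : ℝ) < D + 1 := by positivity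
      rw [mul_div_assoc', div_lt_iff₀ h6]
      nlinarith
    linarith
  obtain ⟨c, k, hck⟩ := not_two_large D
    (fun p : κ × Fin D => (P p.1).coeff (p.2 + 1)) (fun p => (p.2 : ℕ) + 1)
    (fun p => by omega) (fun p => by have := p.2.2; omega) (ε / (D + 1)) (by positivity) S h1
  obtain ⟨a, s, _, hs, h2⟩ := hS c k
  obtain ⟨j, hj, h3⟩ := hck a s hs
  exact h3 (h2 j hj)

theorem norm_coe_le (y : ℝ) : ‖(y : UnitAddCircle)‖ = nn y := by
  rw [UnitAddCircle.norm_eq]
  rfl

open Polynomial in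
/-- recurrence near a point of the torus along polynomials -/
theorem torus_rec {S : Set ℕ} (hS : TwoLarge S) {κ : Type} [Fintype κ] [DecidableEq κ]
    (P : κ → ℝ[X]) (hP : ∀ i, (P i).eval 0 = 0) (q : ℕ) (hq : 0 < q)
    (x : κ → UnitAddCircle) (U : Set (κ → UnitAddCircle)) (hU : IsOpen U) (hx : x ∈ U) :
    ∃ s ∈ S, q ∣ s ∧ (fun i => (((P i).eval (s : ℝ) : ℝ) : UnitAddCircle) + x i) ∈ U := by
  obtain ⟨ε, hε, hball⟩ := Metric.isOpen_iff.1 hU x hx
  have hq' : (0 : ℝ) < q := Nat.cast_pos.2 hq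
  obtain ⟨s, hs, h⟩ := poly_rec hS (κ := Option κ)
    (fun o => o.elim (C (1 / (q : ℝ)) * X) P) (by
      rintro (_ | i)
      · simp
      · exact hP i) (min ε (1 / q)) (by positivity)
  refine ⟨s, hs, ?_, ?_⟩
  · have h1 := lt_of_lt_of_le (h none) (min_le_right _ _)
    simp only [Option.elim, eval_mul, eval_C, eval_X] at h1
    unfold nn at h1
    set z := round (1 / (q : ℝ) * s) with hz
    have h2 : |(s : ℝ) - q * z| < 1 := by
      have h3 : (s : ℝ) - q * z = q * (1 / (q : ℝ) * s - z) := by field_simp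
      rw [h3, abs_mul, abs_of_pos hq']
      calc (q : ℝ) * |1 / (q : ℝ) * s - z| < q * (1 / q) := mul_lt_mul_of_pos_left h1 hq'
        _ = 1 := by field_simp
    have h4 : |(s : ℤ) - q * z| < 1 := by exact_mod_cast h2
    have h5 : (s : ℤ) = q * z := by
      have := Int.abs_lt_one_iff.1 h4
      linarith
    have h6 : (q : ℤ) ∣ (s : ℤ) := ⟨z, h5⟩
    exact_mod_cast h6
  · apply hball
    rw [Metric.mem_ball, dist_pi_lt_iff hε]
    intro i
    rw [dist_eq_norm, add_sub_cancel_right, norm_coe_le]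
    exact lt_of_lt_of_le (h (some i)) (min_le_left _ _)

/-- rotations of compact abelian Lie groups -/
theorem rotation_rec {S : Set ℕ} (hS : TwoLarge S) (n : ℕ) (F : Type) [AddCommGroup F] [Finite F]
    [TopologicalSpace F] (α x : (Fin n → UnitAddCircle) × F)
    (U : Set ((Fin n → UnitAddCircle) × F)) (hU : IsOpen U) (hx : x ∈ U) :
    ∃ s ∈ S, s • α + x ∈ U := by
  classical
  obtain ⟨α1, α2⟩ := α
  obtain ⟨x1, x2⟩ := x
  choose a ha using fun i => QuotientAddGroup.mk_surjective (α1 i)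
  obtain ⟨s, hs, hdvd, h⟩ := torus_rec hS (fun i : Fin n => Polynomial.C (a i) * Polynomial.X)
    (by intro i; simp) (Nat.card F) Nat.card_pos x1 ((fun y => (y, x2)) ⁻¹' U)
    (hU.preimage (by fun_prop)) hx
  refine ⟨s, hs, ?_⟩
  have h1 : s • α2 = 0 := by
    obtain ⟨w, hw⟩ := hdvd
    rw [hw, mul_nsmul, card_nsmul_eq_zero', smul_zero]
  have h2 : s • ((α1, α2) : (Fin n → UnitAddCircle) × F) + (x1, x2) =
      ((fun i => (((Polynomial.C (a i) * Polynomial.X).eval (s : ℝ) : ℝ) : UnitAddCircle) + x1 i),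
        x2) := by
    apply Prod.ext
    · funext i
      simp only [Prod.fst_add, Prod.smul_fst, Pi.add_apply, Pi.smul_apply, Polynomial.eval_mul,
        Polynomial.eval_C, Polynomial.eval_X]
      congr 1
      rw [← ha i, mul_comm, ← nsmul_eq_mul]
      rfl
    · simp only [Prod.snd_add, Prod.smul_snd, h1, zero_add]
  rw [h2]
  exact h

/-- the affine map `y ↦ y + N y + b` of the torus -/
def aff {n : ℕ} (N : Matrix (Fin n) (Fin n) ℤ) (b y : Fin n → UnitAddCircle) :
    Fin n → UnitAddCircle :=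
  fun i => y i + ∑ j, N i j • y j + b i

/-- the affine map `y ↦ y + M y + b` of real space -/
def affR {n : ℕ} (M : Matrix (Fin n) (Fin n) ℝ) (b y : Fin n → ℝ) : Fin n → ℝ :=
  y + M.mulVec y + b

theorem aff_lift {n : ℕ} (N : Matrix (Fin n) (Fin n) ℤ) (b y : Fin n → ℝ) :
    aff N (fun i => (b i : UnitAddCircle)) (fun i => (y i : UnitAddCircle)) =
      fun i => ((affR (N.map (fun z : ℤ => (z : ℝ))) b y i : ℝ) : UnitAddCircle) := by
  funext i
  unfold aff affR
  simp only [Pi.add_apply, Matrix.mulVec, dotProduct, Matrix.map_apply]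
  rw [AddCircle.coe_add, AddCircle.coe_add]
  congr 2
  have h : ((∑ j, ((N i j : ℤ) : ℝ) * y j : ℝ) : UnitAddCircle) =
      ∑ j, (((((N i j : ℤ) : ℝ) * y j : ℝ)) : UnitAddCircle) := by
    exact map_sum (QuotientAddGroup.mk' (AddSubgroup.zmultiples (1 : ℝ))) _ _
  rw [h]
  apply Finset.sum_congr rfl
  intro j _
  rw [← zsmul_eq_mul]
  rfl

theorem aff_iter {n : ℕ} (N : Matrix (Fin n) (Fin n) ℤ) (b y : Fin n → ℝ) (s : ℕ) :
    (aff N (fun i => (b i : UnitAddCircle)))^[s] (fun i => (y i : UnitAddCircle)) =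
      fun i => (((affR (N.map (fun z : ℤ => (z : ℝ))) b)^[s] y i : ℝ) : UnitAddCircle) := by
  induction s with
  | zero => rfl
  | succ s ih =>
    rw [Function.iterate_succ_apply', ih, aff_lift, Function.iterate_succ_apply']

theorem affR_iter {n : ℕ} (M : Matrix (Fin n) (Fin n) ℝ) (d : ℕ) (hM : M ^ d = 0)
    (b x : Fin n → ℝ) (s : ℕ) :
    (affR M b)^[s] x = x + ∑ l ∈ Finset.range d,
      (s.choose (l + 1) : ℝ) • ((M ^ l).mulVec (M.mulVec x + b)) := by
  induction s with
  | zero =>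
    simp
  | succ s ih =>
    rw [Function.iterate_succ_apply', ih]
    set v : ℕ → Fin n → ℝ := fun l => (M ^ l).mulVec (M.mulVec x + b) with hv
    have hvd : v d = 0 := by simp only [hv]; rw [hM, Matrix.zero_mulVec]
    have hv0 : v 0 = M.mulVec x + b := by simp only [hv]; rw [pow_zero, Matrix.one_mulVec]
    have hvs : ∀ l, M.mulVec (v l) = v (l + 1) := by
      intro l
      simp only [hv]
      rw [Matrix.mulVec_mulVec, ← pow_succ']
    have h1 : M.mulVec (∑ l ∈ Finset.range d, (s.choose (l + 1) : ℝ) • v l) =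
        ∑ l ∈ Finset.range d, (s.choose (l + 1) : ℝ) • v (l + 1) := by
      rw [Matrix.mulVec_sum]
      apply Finset.sum_congr rfl
      intro l _
      rw [Matrix.mulVec_smul, hvs]
    have h2 : ∑ l ∈ Finset.range d, (s.choose (l + 1) : ℝ) • v (l + 1) + v 0 =
        ∑ l ∈ Finset.range d, (s.choose l : ℝ) • v l := by
      have h3 := Finset.sum_range_succ' (fun l => (s.choose l : ℝ) • v l) d
      rw [Finset.sum_range_succ, hvd, smul_zero, add_zero, Nat.choose_zero_right, Nat.cast_one,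
        one_smul] at h3
      exact h3.symm
    have h4 : ∑ l ∈ Finset.range d, (((s + 1).choose (l + 1) : ℕ) : ℝ) • v l =
        ∑ l ∈ Finset.range d, (s.choose l : ℝ) • v l +
        ∑ l ∈ Finset.range d, (s.choose (l + 1) : ℝ) • v l := by
      rw [← Finset.sum_add_distrib]
      apply Finset.sum_congr rfl
      intro l _
      rw [Nat.choose_succ_succ, Nat.cast_add, add_smul]
    show x + (∑ l ∈ Finset.range d, (s.choose (l + 1) : ℝ) • v l) +
      M.mulVec (x + ∑ l ∈ Finset.range d, (s.choose (l + 1) : ℝ) • v l) + b =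
      x + ∑ l ∈ Finset.range d, (((s + 1).choose (l + 1) : ℕ) : ℝ) • v l
    rw [Matrix.mulVec_add, h1, h4, ← h2, hv0]
    abel

theorem affine_rec {S : Set ℕ} (hS : TwoLarge S) (n d : ℕ) (N : Matrix (Fin n) (Fin n) ℤ)
    (hN : N ^ d = 0) (b x : Fin n → UnitAddCircle) (U : Set (Fin n → UnitAddCircle))
    (hU : IsOpen U) (hx : x ∈ U) : ∃ s ∈ S, (aff N b)^[s] x ∈ U := by
  classical
  choose b' hb' using fun i => QuotientAddGroup.mk_surjective (b i)
  choose x' hx' using fun i => QuotientAddGroup.mk_surjective (x i)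
  have eb : b = fun i => ((b' i : ℝ) : UnitAddCircle) := by funext i; exact (hb' i).symm
  have ex : x = fun i => ((x' i : ℝ) : UnitAddCircle) := by funext i; exact (hx' i).symm
  set M : Matrix (Fin n) (Fin n) ℝ := N.map (fun z : ℤ => (z : ℝ)) with hM
  have hMd : M ^ d = 0 := by
    have h1 : M = (Int.castRingHom ℝ).mapMatrix N := rfl
    rw [h1, ← map_pow, hN, map_zero]
  set v : ℕ → Fin n → ℝ := fun l => (M ^ l).mulVec (M.mulVec x' + b') with hv
  let P : Fin n → Polynomial ℝ := fun i => ∑ l ∈ Finset.range d,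
    Polynomial.C (v l i / (l + 1).factorial) * descPochhammer ℝ (l + 1)
  have hev : ∀ i (s : ℕ), (P i).eval (s : ℝ) =
      ∑ l ∈ Finset.range d, (s.choose (l + 1) : ℝ) * v l i := by
    intro i s
    simp only [P]
    rw [Polynomial.eval_finsetSum]
    apply Finset.sum_congr rfl
    intro l _
    rw [Polynomial.eval_mul, Polynomial.eval_C, descPochhammer_eval_eq_descFactorial,
      Nat.descFactorial_eq_factorial_mul_choose]
    have : (((l + 1).factorial : ℕ) : ℝ) ≠ 0 := Nat.cast_ne_zero.2 (Nat.factorial_ne_zero _)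
    push_cast
    field_simp
  obtain ⟨s, hs, _, h⟩ := torus_rec hS P (by
    intro i
    have := hev i 0
    rw [Nat.cast_zero] at this
    rw [this]
    simp) 1 one_pos x U hU hx
  refine ⟨s, hs, ?_⟩
  have h2 : (aff N b)^[s] x = fun i => (((P i).eval (s : ℝ) : ℝ) : UnitAddCircle) + x i := by
    rw [eb, ex, aff_iter]
    funext i
    rw [← hM, affR_iter M d hMd, hev, ← AddCircle.coe_add]
    congr 1
    simp only [Pi.add_apply, Finset.sum_apply, Pi.smul_apply, smul_eq_mul]
    rw [add_comm]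
  rw [h2]
  exact h

end Pool.Agent.W97.TL
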