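import Pool.Agent.W97.TL.Main2
import Pool.Agent.W97.TL.Rec

/-!
Recurrence of two-large sets in 2-step nilsystems.
-/

set_option autoImplicit false

namespace Pool.Agent.W97.TL

open Polynomial in
theorem bracket_rec {S : Set ℕ} (hS : TwoLarge S) (p q : ℕ) (α : Fin p → ℝ)
    (c : Fin q → Fin p → ℝ) (P : Fin q → ℝ[X]) (hP : ∀ i, (P i).eval 0 = 0) (ε : ℝ) (hε : 0 < ε) :
    ∃ s ∈ S, (∀ l, nn (α l * s) < ε) ∧
      ∀ k, nn ((P k).eval (s : ℝ) + ∑ l, c k l * (s * (round (α l * s) : ℝ))) < ε := by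
  by_contra hcon
  push Not at hcon
  obtain ⟨D, hD⟩ : ∃ D : ℕ, ∀ i, (P i).natDegree ≤ D := by
    refine ⟨Finset.univ.sup (fun i => (P i).natDegree), fun i => ?_⟩
    exact Finset.le_sup (f := fun i => (P i).natDegree) (Finset.mem_univ i)
  have hev : ∀ i (s : ℕ), (P i).eval (s : ℝ) =
      ∑ l : Fin D, (P i).coeff (l + 1) * (s : ℝ) ^ ((l : ℕ) + 1) := by
    intro i s
    rw [eval_eq_sum_range' (Nat.lt_succ_of_le (hD i)), Finset.sum_range_succ']
    have h0 : (P i).coeff 0 = 0 := by rw [coeff_zero_eq_eval_zero, hP]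
    rw [h0, zero_mul, add_zero, Finset.sum_range]
  have hDp : (0 : ℝ) < D + p + 1 := by positivity
  set δ : ℝ := ε / (D + p + 1) with hδ
  have hδ0 : 0 < δ := by positivity
  have hδε : ((D : ℝ) + p) * δ < ε := by
    rw [hδ, mul_div_assoc', div_lt_iff₀ hDp]
    nlinarith
  have hδε' : δ ≤ ε := by
    rw [hδ, div_le_iff₀ hDp]
    have : (0 : ℝ) ≤ D + p := by positivity
    nlinarith
  let θ : (Fin q × Fin D) ⊕ Fin p → ℝ := Sum.elim (fun x => (P x.1).coeff (x.2 + 1)) α
  let r : (Fin q × Fin D) ⊕ Fin p → ℕ := Sum.elim (fun x => (x.2 : ℕ) + 1) (fun _ => 1)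
  obtain ⟨c', k, hck⟩ := not_two_large2 (D + 1) (by omega) θ r
    (by rintro (x | x) <;> simp [r])
    (by
      rintro (x | x)
      · have := x.2.2
        simp only [r, Sum.elim_inl]
        omega
      · simp [r])
    (fun x : Fin q × Fin p => c x.1 x.2) (fun x => Sum.inr x.2) (fun x => rfl) δ hδ0 S
    (by
      intro s hs
      by_contra h2
      push Not at h2
      obtain ⟨h3, h4⟩ := h2
      obtain ⟨k, hk⟩ := hcon s hs (fun l => by
        have := h3 (Sum.inr l)
        simp only [θ, r, Sum.elim_inr, pow_one] at this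
        linarith)
      rw [hev] at hk
      have h5 := hk.trans (nn_add_le _ _)
      have h6 := nn_sum_le Finset.univ (fun l : Fin D => (P k).coeff (l + 1) * (s : ℝ) ^ ((l : ℕ) + 1))
      have h7 := nn_sum_le Finset.univ (fun l : Fin p => c k l * (s * (round (α l * s) : ℝ)))
      have h8 : ∑ l : Fin D, nn ((P k).coeff (l + 1) * (s : ℝ) ^ ((l : ℕ) + 1)) ≤
          ∑ _l : Fin D, δ := Finset.sum_le_sum (fun l _ => (h3 (Sum.inl (k, l))).le)
      have h9 : ∑ l : Fin p, nn (c k l * (s * (round (α l * s) : ℝ))) ≤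
          ∑ _l : Fin p, δ := Finset.sum_le_sum (fun l _ => (h4 (k, l)).le)
      rw [Finset.sum_const, Finset.card_univ, Fintype.card_fin, nsmul_eq_mul] at h8 h9
      linarith)
  obtain ⟨a, s, _, hs, h2⟩ := hS c' k
  obtain ⟨j, hj, h3⟩ := hck a s hs
  exact h3 (h2 j hj)

/-- multiplication of the 2-step nilpotent Lie group attached to `B` -/
def hmul {p q : ℕ} (B : Fin q → Fin p → Fin p → ℤ) (x y : (Fin p → ℝ) × (Fin q → ℝ)) :
    (Fin p → ℝ) × (Fin q → ℝ) :=
  (fun i => x.1 i + y.1 i, fun k => x.2 k + y.2 k + ∑ i, ∑ l, (B k i l : ℝ) * x.1 i * y.1 l)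

/-- the bilinear form -/
def bil {p q : ℕ} (B : Fin q → Fin p → Fin p → ℤ) (k : Fin q) (x y : Fin p → ℝ) : ℝ :=
  ∑ i, ∑ l, (B k i l : ℝ) * x i * y l

theorem bil_add_right {p q : ℕ} (B : Fin q → Fin p → Fin p → ℤ) (k : Fin q) (x y z : Fin p → ℝ) :
    bil B k x (fun i => y i + z i) = bil B k x y + bil B k x z := by
  unfold bil
  rw [← Finset.sum_add_distrib]
  apply Finset.sum_congr rfl; intro i _
  rw [← Finset.sum_add_distrib]
  apply Finset.sum_congr rfl; intro l _
  ring

theorem bil_add_left {p q : ℕ} (B : Fin q → Fin p → Fin p → ℤ) (k : Fin q) (x y z : Fin p → ℝ) :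
    bil B k (fun i => x i + y i) z = bil B k x z + bil B k y z := by
  unfold bil
  rw [← Finset.sum_add_distrib]
  apply Finset.sum_congr rfl; intro i _
  rw [← Finset.sum_add_distrib]
  apply Finset.sum_congr rfl; intro l _
  ring

theorem bil_smul_right {p q : ℕ} (B : Fin q → Fin p → Fin p → ℤ) (k : Fin q) (t : ℝ)
    (x y : Fin p → ℝ) : bil B k x (fun i => t * y i) = t * bil B k x y := by
  unfold bil
  rw [Finset.mul_sum]
  apply Finset.sum_congr rfl; intro i _
  rw [Finset.mul_sum]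
  apply Finset.sum_congr rfl; intro l _
  ring

theorem bil_smul_left {p q : ℕ} (B : Fin q → Fin p → Fin p → ℤ) (k : Fin q) (t : ℝ)
    (x y : Fin p → ℝ) : bil B k (fun i => t * x i) y = t * bil B k x y := by
  unfold bil
  rw [Finset.mul_sum]
  apply Finset.sum_congr rfl; intro i _
  rw [Finset.mul_sum]
  apply Finset.sum_congr rfl; intro l _
  ring

theorem hmul_iter {p q : ℕ} (B : Fin q → Fin p → Fin p → ℤ) (g x : (Fin p → ℝ) × (Fin q → ℝ))
    (s : ℕ) : (hmul B g)^[s] x = (fun i => x.1 i + s * g.1 i, fun k => x.2 k + s * g.2 k +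
      s * bil B k g.1 x.1 + ((s : ℝ) * (s - 1) / 2) * bil B k g.1 g.1) := by
  induction s with
  | zero => simp
  | succ s ih =>
    rw [Function.iterate_succ_apply', ih]
    apply Prod.ext
    · funext i
      simp only [hmul]
      push_cast
      ring
    · funext k
      show g.2 k + (x.2 k + s * g.2 k + s * bil B k g.1 x.1 +
        ((s : ℝ) * (s - 1) / 2) * bil B k g.1 g.1) +
        bil B k g.1 (fun i => x.1 i + s * g.1 i) = _
      rw [bil_add_right, bil_smul_right]
      push_cast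
      ring

open Polynomial in
theorem nil_rec {S : Set ℕ} (hS : TwoLarge S) (p q : ℕ) (B : Fin q → Fin p → Fin p → ℤ)
    (g x : (Fin p → ℝ) × (Fin q → ℝ)) (ε : ℝ) (hε : 0 < ε) :
    ∃ s ∈ S, ∃ (u : Fin p → ℤ) (v : Fin q → ℤ),
      (∀ i, |(hmul B ((hmul B g)^[s] x) (fun i => (u i : ℝ), fun k => (v k : ℝ))).1 i - x.1 i| < ε) ∧
      (∀ k, |(hmul B ((hmul B g)^[s] x) (fun i => (u i : ℝ), fun k => (v k : ℝ))).2 k - x.2 k|
        < ε) := by
  -- a bound for the bilinear form
  set W : ℝ := ∑ k, ∑ i, ∑ l, |(B k i l : ℝ) * x.1 i| with hW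
  have hW0 : 0 ≤ W := Finset.sum_nonneg (fun _ _ => Finset.sum_nonneg (fun _ _ =>
    Finset.sum_nonneg (fun _ _ => abs_nonneg _)))
  set ε' : ℝ := ε / (2 * (W + 1)) with hε'
  have hε'0 : 0 < ε' := by positivity
  have hε'1 : ε' * W < ε / 2 := by
    rw [hε', div_mul_eq_mul_div, div_lt_div_iff₀ (by positivity) (by positivity)]
    nlinarith
  have hε'2 : ε' ≤ ε / 2 := by
    rw [hε', div_le_div_iff₀ (by positivity) (by positivity)]
    nlinarith
  obtain ⟨s, hs, h1, h2⟩ := bracket_rec hS p q g.1 (fun k l => -∑ i, (B k i l : ℝ) * g.1 i)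
    (fun k => C (g.2 k + bil B k g.1 x.1 - bil B k x.1 g.1) * X +
      C (bil B k g.1 g.1 / 2) * (X ^ 2 - X)) (by intro k; simp) ε' hε'0
  set N : Fin p → ℝ := fun l => (round (g.1 l * s) : ℝ) with hN
  set w : Fin p → ℝ := fun l => g.1 l * s - N l with hw
  refine ⟨s, hs, fun l => -round (g.1 l * s), fun k => -round (((C (g.2 k + bil B k g.1 x.1 -
    bil B k x.1 g.1) * X + C (bil B k g.1 g.1 / 2) * (X ^ 2 - X)) : ℝ[X]).eval (s : ℝ) +
    ∑ l, (-∑ i, (B k i l : ℝ) * g.1 i) * (s * (round (g.1 l * s) : ℝ))), ?_, ?_⟩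
  · intro i
    rw [hmul_iter]
    simp only [hmul]
    have h3 := h1 i
    unfold nn at h3
    have e1 : x.1 i + s * g.1 i + ((-round (g.1 i * s) : ℤ) : ℝ) - x.1 i =
        g.1 i * s - (round (g.1 i * s) : ℝ) := by push_cast; ring
    rw [e1]
    linarith
  · intro k
    have h3 := h2 k
    unfold nn at h3
    set z := round (((C (g.2 k + bil B k g.1 x.1 -
      bil B k x.1 g.1) * X + C (bil B k g.1 g.1 / 2) * (X ^ 2 - X)) : ℝ[X]).eval (s : ℝ) +
      ∑ l, (-∑ i, (B k i l : ℝ) * g.1 i) * (s * (round (g.1 l * s) : ℝ))) with hz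
    rw [hmul_iter]
    show |x.2 k + s * g.2 k + s * bil B k g.1 x.1 + ((s : ℝ) * (s - 1) / 2) * bil B k g.1 g.1 +
      ((-z : ℤ) : ℝ) + bil B k (fun i => x.1 i + s * g.1 i)
        (fun l => ((-round (g.1 l * s) : ℤ) : ℝ)) - x.2 k| < ε
    have e2 : (fun l => ((-round (g.1 l * s) : ℤ) : ℝ)) = fun l => (-1 : ℝ) * N l := by
      funext l
      simp only [hN]
      push_cast
      ring
    have e3 : ∑ l, (-∑ i, (B k i l : ℝ) * g.1 i) * (s * (round (g.1 l * s) : ℝ)) =
        -(s * bil B k g.1 N) := by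
      unfold bil
      rw [Finset.sum_comm, Finset.mul_sum, ← Finset.sum_neg_distrib]
      apply Finset.sum_congr rfl; intro l _
      rw [Finset.mul_sum, neg_mul, Finset.sum_mul]
      congr 1
      apply Finset.sum_congr rfl; intro i _
      simp only [hN]
      ring
    have e4 : bil B k x.1 N = s * bil B k x.1 g.1 - bil B k x.1 w := by
      have : N = fun l => s * g.1 l + (-1) * w l := by
        funext l; simp only [hw]; ring
      rw [this, bil_add_right, bil_smul_right, bil_smul_right]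
      ring
    rw [e2, bil_smul_right, bil_add_left, bil_smul_left, e4]
    rw [e3] at h3
    simp only [eval_add, eval_mul, eval_C, eval_X, eval_sub, eval_pow] at h3
    have e5 : x.2 k + s * g.2 k + s * bil B k g.1 x.1 + ((s : ℝ) * (s - 1) / 2) * bil B k g.1 g.1 +
        ((-z : ℤ) : ℝ) + -1 * (s * bil B k x.1 g.1 - bil B k x.1 w + s * bil B k g.1 N) - x.2 k =
        ((g.2 k + bil B k g.1 x.1 - bil B k x.1 g.1) * s + bil B k g.1 g.1 / 2 * ((s : ℝ) ^ 2 - s) +
          -(s * bil B k g.1 N) - z) + bil B k x.1 w := by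
      push_cast
      ring
    rw [e5]
    have h6 : |bil B k x.1 w| ≤ ε' * W := by
      unfold bil
      refine (Finset.abs_sum_le_sum_abs _ _).trans ?_
      have h7 : ∀ i, |∑ l, (B k i l : ℝ) * x.1 i * w l| ≤ ε' * ∑ l, |(B k i l : ℝ) * x.1 i| := by
        intro i
        refine (Finset.abs_sum_le_sum_abs _ _).trans ?_
        rw [Finset.mul_sum]
        apply Finset.sum_le_sum
        intro l _
        rw [abs_mul, mul_comm]
        apply mul_le_mul_of_nonneg_right _ (abs_nonneg _)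
        have := h1 l
        unfold nn at this
        exact this.le
      refine (Finset.sum_le_sum (fun i _ => h7 i)).trans ?_
      rw [← Finset.mul_sum]
      apply mul_le_mul_of_nonneg_left _ hε'0.le
      rw [hW]
      exact Finset.single_le_sum (f := fun k => ∑ i, ∑ l, |(B k i l : ℝ) * x.1 i|)
        (fun _ _ => Finset.sum_nonneg (fun _ _ => Finset.sum_nonneg (fun _ _ => abs_nonneg _)))
        (Finset.mem_univ k)
    refine (abs_add_le _ _).trans_lt ?_
    linarith

end Pool.Agent.W97.TL
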