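import Mathlib

/-!
Sequences modulo `1` visiting many separated points.
-/

set_option autoImplicit false

namespace Pool.Agent.W97.TL

/-- the distance to the nearest integer -/
noncomputable def nn (x : ℝ) : ℝ := |x - round x|

theorem nn_le (x : ℝ) (z : ℤ) : nn x ≤ |x - z| := round_le x z

theorem nn_nonneg (x : ℝ) : 0 ≤ nn x := abs_nonneg _

theorem nn_neg (x : ℝ) : nn (-x) = nn x := by
  apply le_antisymm
  · refine (nn_le (-x) (-round x)).trans (le_of_eq ?_)
    unfold nn
    push_cast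
    rw [← abs_neg]
    congr 1
    ring
  · refine (nn_le x (-round (-x))).trans (le_of_eq ?_)
    unfold nn
    push_cast
    rw [← abs_neg]
    congr 1
    ring

theorem nn_add_le (x y : ℝ) : nn (x + y) ≤ nn x + nn y := by
  refine (nn_le (x + y) (round x + round y)).trans ?_
  unfold nn
  push_cast
  calc |x + y - (round x + round y)| = |(x - round x) + (y - round y)| := by congr 1; ring
    _ ≤ _ := abs_add_le _ _

theorem nn_sub_le (x y : ℝ) : nn (x - y) ≤ nn x + nn y := by
  rw [sub_eq_add_neg, ← nn_neg y]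
  exact nn_add_le _ _

theorem nn_add_int (x : ℝ) (z : ℤ) : nn (x + z) = nn x := by
  unfold nn
  rw [round_add_intCast]
  push_cast
  congr 1
  ring

theorem nn_le_abs (x : ℝ) : nn x ≤ |x| := by
  have := nn_le x 0
  simpa using this

theorem nn_nat_mul (n : ℕ) (x : ℝ) : nn (n * x) ≤ n * nn x := by
  refine (nn_le (n * x) (n * round x)).trans (le_of_eq ?_)
  unfold nn
  push_cast
  rw [← mul_sub, abs_mul, Nat.abs_cast]

theorem nn_eq_abs (x : ℝ) (h : |x| ≤ 1 / 2) : nn x = |x| := by
  apply le_antisymm (nn_le_abs x)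
  unfold nn
  by_cases h0 : round x = 0
  · rw [h0]; simp
  · have h1 : (1 : ℝ) ≤ |(round x : ℝ)| := by
      rw [← Int.cast_abs]
      exact_mod_cast Int.one_le_abs h0
    have h2 : |(round x : ℝ)| ≤ |x - round x| + |x| := by
      calc |(round x : ℝ)| = |x - (x - round x)| := by congr 1; ring
        _ ≤ |x| + |x - round x| := abs_sub _ _
        _ = _ := add_comm _ _
    linarith

/-- the sequence `q` visits `R` points, pairwise at distance `≥ ρ` modulo `1`, at times `≤ J` -/
def Rich (q : ℕ → ℝ) (R J : ℕ) (ρ : ℝ) : Prop :=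
  ∃ t : Fin R → ℕ, (∀ a, t a ≤ J) ∧ ∀ a b, a ≠ b → ρ ≤ nn (q (t a) - q (t b))

theorem Rich.mono {q : ℕ → ℝ} {R J R' J' : ℕ} {ρ ρ' : ℝ} (h : Rich q R J ρ) (hR : R' ≤ R)
    (hJ : J ≤ J') (hρ : ρ' ≤ ρ) : Rich q R' J' ρ' := by
  obtain ⟨t, h1, h2⟩ := h
  refine ⟨fun a => t (Fin.castLE hR a), fun a => (h1 _).trans hJ, fun a b hab => hρ.trans (h2 _ _ ?_)⟩
  intro h3
  exact hab (Fin.castLE_injective hR h3)

/-- a maximal separated set of times -/
theorem exists_net {q : ℕ → ℝ} {R J : ℕ} {ρ : ℝ} (hρ : 0 < ρ) (h : ¬ Rich q R J ρ) :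
    ∃ P : Finset ℕ, P.card < R ∧ ∀ j ≤ J, ∃ x ∈ P, nn (q j - q x) < ρ := by
  classical
  let Fam := ((Finset.range (J + 1)).powerset).filter
    (fun P => ∀ x ∈ P, ∀ y ∈ P, x ≠ y → ρ ≤ nn (q x - q y))
  have hne : Fam.Nonempty := ⟨∅, by simp [Fam]⟩
  obtain ⟨P, hP, hmax⟩ := Finset.exists_max_image Fam Finset.card hne
  simp only [Fam, Finset.mem_filter, Finset.mem_powerset] at hP
  refine ⟨P, ?_, ?_⟩
  · by_contra hcard
    push Not at hcard
    obtain ⟨P', hP', hc⟩ := Finset.exists_subset_card_eq hcard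
    apply h
    let e : Fin R ≃ P' := (P'.equivFinOfCardEq hc).symm
    refine ⟨fun a => (e a : ℕ), fun a => ?_, fun a b hab => ?_⟩
    · have := hP.1 (hP' (e a).2)
      rw [Finset.mem_range] at this
      exact Nat.lt_succ_iff.1 this
    · apply hP.2 _ (hP' (e a).2) _ (hP' (e b).2)
      intro h3
      exact hab (e.injective (Subtype.ext h3))
  · intro j hj
    by_contra hcon
    push Not at hcon
    have hjP : j ∉ P := by
      intro h3
      have := hcon j h3
      rw [sub_self] at this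
      have h4 : nn 0 = 0 := by unfold nn; simp
      rw [h4] at this
      linarith
    have h5 : insert j P ∈ Fam := by
      simp only [Fam, Finset.mem_filter, Finset.mem_powerset]
      refine ⟨?_, ?_⟩
      · intro x hx
        rcases Finset.mem_insert.1 hx with rfl | hx
        · rw [Finset.mem_range]; omega
        · exact hP.1 hx
      · intro x hx y hy hxy
        rcases Finset.mem_insert.1 hx with rfl | hx'
        · rcases Finset.mem_insert.1 hy with rfl | hy'
          · exact absurd rfl hxy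
          · exact hcon y hy'
        · rcases Finset.mem_insert.1 hy with rfl | hy'
          · rw [← nn_neg, neg_sub]
            exact hcon x hx'
          · exact hP.2 x hx' y hy' hxy
    have h6 := hmax _ h5
    rw [Finset.card_insert_of_notMem hjP] at h6
    omega

/-- the difference sequence -/
def dif (q : ℕ → ℝ) : ℕ → ℝ := fun j => q (j + 1) - q j

theorem rich_of_dif {q : ℕ → ℝ} {R J : ℕ} {ρ : ℝ} (hρ : 0 < ρ)
    (h : Rich (dif q) (R ^ 2) J (4 * ρ)) : Rich q R (J + 1) ρ := by
  classical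
  by_contra hcon
  obtain ⟨P, hP, hnet⟩ := exists_net hρ hcon
  obtain ⟨t, ht, hsep⟩ := h
  choose! π hπ1 hπ2 using hnet
  let g : Fin (R ^ 2) → P × P := fun a =>
    (⟨π (t a + 1), hπ1 _ (by have := ht a; omega)⟩, ⟨π (t a), hπ1 _ (by have := ht a; omega)⟩)
  have hcard : Fintype.card (P × P) < Fintype.card (Fin (R ^ 2)) := by
    rw [Fintype.card_prod, Fintype.card_coe, Fintype.card_fin, pow_two]
    exact Nat.mul_self_lt_mul_self hP
  obtain ⟨a, b, hab, hg⟩ := Fintype.exists_ne_map_eq_of_card_lt g hcard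
  have h1 : π (t a + 1) = π (t b + 1) := congrArg (fun x : P × P => (x.1 : ℕ)) hg
  have h2 : π (t a) = π (t b) := congrArg (fun x : P × P => (x.2 : ℕ)) hg
  have h3 := hsep a b hab
  have ha1 := hπ2 (t a + 1) (by have := ht a; omega)
  have ha2 := hπ2 (t a) (by have := ht a; omega)
  have hb1 := hπ2 (t b + 1) (by have := ht b; omega)
  have hb2 := hπ2 (t b) (by have := ht b; omega)
  rw [← h1] at hb1
  rw [← h2] at hb2
  have h4 : dif q (t a) - dif q (t b) =
      ((q (t a + 1) - q (π (t a + 1))) - (q (t a) - q (π (t a)))) -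
      ((q (t b + 1) - q (π (t a + 1))) - (q (t b) - q (π (t a)))) := by
    unfold dif; ring
  rw [h4] at h3
  have h5 := nn_sub_le ((q (t a + 1) - q (π (t a + 1))) - (q (t a) - q (π (t a))))
    ((q (t b + 1) - q (π (t a + 1))) - (q (t b) - q (π (t a))))
  have h6 := nn_sub_le (q (t a + 1) - q (π (t a + 1))) (q (t a) - q (π (t a)))
  have h7 := nn_sub_le (q (t b + 1) - q (π (t a + 1))) (q (t b) - q (π (t a)))
  linarith

theorem rich_of_dif_iter (e : ℕ) : ∀ {q : ℕ → ℝ} {R J : ℕ} {ρ : ℝ}, 0 < ρ →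
    Rich (dif^[e] q) (R ^ (2 ^ e)) J (4 ^ e * ρ) → Rich q R (J + e) ρ := by
  induction e with
  | zero => intro q R J ρ _ h; simpa using h
  | succ e ih =>
    intro q R J ρ hρ h
    rw [Function.iterate_succ_apply] at h
    have h1 : Rich (dif q) (R ^ 2) (J + e) (4 * ρ) := by
      apply ih (by linarith)
      have e1 : (R ^ 2) ^ (2 ^ e) = R ^ (2 ^ (e + 1)) := by
        rw [← pow_mul]; congr 1; rw [pow_succ]; ring
      have e2 : (4 : ℝ) ^ e * (4 * ρ) = 4 ^ (e + 1) * ρ := by rw [pow_succ]; ring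
      rw [e1, e2]
      exact h
    exact rich_of_dif hρ h1

/-- linear sequences -/
theorem rich_linear (m K : ℕ) (A β δ : ℝ) (hδ : 0 < δ)
    (h : δ ≤ nn ((m.factorial : ℝ) * β)) (hK : 0 < K) :
    Rich (fun j => A + j * β) (m + 1) m (1 / (8 * K)) ∨
    Rich (fun j => A + j * β) K (m * (⌈(m.factorial : ℝ) / δ⌉₊ + 1)) (1 / (8 * K)) := by
  have hK' : (0 : ℝ) < K := Nat.cast_pos.2 hK
  set ρ : ℝ := 1 / (8 * K) with hρ
  have hρ0 : 0 < ρ := by positivity
  have hρK : K * ρ = 1 / 8 := by rw [hρ]; field_simp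
  by_cases hN : ∀ N : ℕ, 1 ≤ N → N ≤ m → ρ ≤ nn (N * β)
  · left
    refine ⟨fun a => a, fun a => Nat.lt_succ_iff.1 a.2, fun a b hab => ?_⟩
    have hab' : (a : ℕ) ≠ b := fun h => hab (Fin.ext h)
    rcases lt_or_gt_of_ne hab' with h1 | h1
    · have h2 := hN (b - a) (by omega) (by have := b.2; omega)
      rw [Nat.cast_sub h1.le] at h2
      have e : (A + (a : ℕ) * β) - (A + (b : ℕ) * β) = -((((b : ℕ) : ℝ) - (a : ℕ)) * β) := by ring
      rw [e, nn_neg]
      exact h2
    · have h2 := hN (a - b) (by omega) (by have := a.2; omega)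
      rw [Nat.cast_sub h1.le] at h2
      have e : (A + (a : ℕ) * β) - (A + (b : ℕ) * β) = ((((a : ℕ) : ℝ) - (b : ℕ)) * β) := by ring
      rw [e]
      exact h2
  · right
    push Not at hN
    obtain ⟨N, hN1, hNm, hN2⟩ := hN
    set η := (N : ℝ) * β - round ((N : ℝ) * β) with hη
    have hη1 : |η| = nn (N * β) := rfl
    obtain ⟨M', hM'⟩ := Nat.dvd_factorial hN1 hNm
    have h1 : nn ((m.factorial : ℝ) * β) ≤ M' * |η| := by
      rw [hη1]
      have e : (m.factorial : ℝ) * β = M' * (N * β) := by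
        rw [hM']; push_cast; ring
      rw [e]
      exact nn_nat_mul _ _
    have hM'le : (M' : ℝ) ≤ m.factorial := by
      rw [hM']
      have : M' ≤ N * M' := Nat.le_mul_of_pos_left _ hN1
      exact_mod_cast this
    have hηpos : 0 < |η| := by
      rcases (abs_nonneg η).eq_or_lt with h2 | h2
      · rw [← h2, mul_zero] at h1
        linarith
      · exact h2
    have hη2 : δ / m.factorial ≤ |η| := by
      rw [div_le_iff₀ (by exact_mod_cast Nat.factorial_pos m)]
      calc δ ≤ M' * |η| := h.trans h1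
        _ ≤ m.factorial * |η| := mul_le_mul_of_nonneg_right hM'le (abs_nonneg _)
        _ = |η| * m.factorial := mul_comm _ _
    have hη3 : |η| < ρ := by rw [hη1]; exact hN2
    let u : Fin K → ℕ := fun a => ⌈2 * (a : ℕ) * ρ / |η|⌉₊
    have hu1 : ∀ a : Fin K, 2 * ((a : ℕ) : ℝ) * ρ ≤ u a * |η| := by
      intro a
      have := Nat.le_ceil (2 * ((a : ℕ) : ℝ) * ρ / |η|)
      rwa [div_le_iff₀ hηpos] at this
    have hu2 : ∀ a : Fin K, (u a : ℝ) * |η| < 2 * ((a : ℕ) : ℝ) * ρ + |η| := by
      intro a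
      have := Nat.ceil_lt_add_one (show (0 : ℝ) ≤ 2 * ((a : ℕ) : ℝ) * ρ / |η| by positivity)
      have h3 := mul_lt_mul_of_pos_right this hηpos
      rw [add_mul, div_mul_cancel₀ _ hηpos.ne', one_mul] at h3
      exact h3
    refine ⟨fun a => N * u a, fun a => ?_, ?_⟩
    · apply Nat.mul_le_mul hNm
      have h3 : 2 * ((a : ℕ) : ℝ) * ρ / |η| ≤ (m.factorial : ℝ) / δ := by
        rw [div_le_div_iff₀ hηpos hδ]
        have h4 : ((a : ℕ) : ℝ) ≤ K := by exact_mod_cast a.2.le
        have h5 : 2 * ((a : ℕ) : ℝ) * ρ ≤ 1 := by nlinarith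
        have h6 : δ ≤ m.factorial * |η| := by
          rw [div_le_iff₀ (by exact_mod_cast Nat.factorial_pos m)] at hη2
          linarith
        nlinarith
      exact (Nat.ceil_mono h3).trans (Nat.le_succ _)
    · -- separation
      have key : ∀ a b : Fin K, (b : ℕ) < a → ρ ≤ nn ((A + ((N * u a : ℕ) : ℝ) * β) -
          (A + ((N * u b : ℕ) : ℝ) * β)) := by
        intro a b hab
        have e : (A + ((N * u a : ℕ) : ℝ) * β) - (A + ((N * u b : ℕ) : ℝ) * β) =
            ((u a : ℝ) - u b) * η + (((u a : ℤ) - u b) * round ((N : ℝ) * β) : ℤ) := by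
          rw [hη]; push_cast; ring
        rw [e, nn_add_int]
        have h3 : ((b : ℕ) : ℝ) + 1 ≤ (a : ℕ) := by exact_mod_cast hab
        have h4 : ((a : ℕ) : ℝ) + 1 ≤ K := by exact_mod_cast a.2
        have h5 : (0 : ℝ) ≤ ((b : ℕ) : ℝ) := Nat.cast_nonneg _
        have ha1 := hu1 a
        have ha2 := hu2 a
        have hb1 := hu1 b
        have hb2 := hu2 b
        have h6 : ρ ≤ ((u a : ℝ) - u b) * |η| := by nlinarith
        have h7 : ((u a : ℝ) - u b) * |η| ≤ 1 / 2 := by nlinarith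
        have h8 : |((u a : ℝ) - u b) * η| = ((u a : ℝ) - u b) * |η| := by
          rw [abs_mul]
          congr 1
          apply abs_of_nonneg
          by_contra h9
          push Not at h9
          have := mul_neg_of_neg_of_pos h9 hηpos
          linarith
        rw [nn_eq_abs _ (by rw [h8]; exact h7), h8]
        exact h6
      intro a b hab
      have hab' : (a : ℕ) ≠ b := fun h => hab (Fin.ext h)
      rcases lt_or_gt_of_ne hab' with h3 | h3
      · rw [← nn_neg, neg_sub]
        exact key b a h3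
      · exact key a b h3

end Pool.Agent.W97.TL
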